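import Pool.Agent.MP_070445_nt.Interval

/-!
Counting the `D ≤ X` whose Pell equation has a small solution.
-/

set_option autoImplicit false
open Finset
open scoped Classical

namespace Pool.Agent.MP_070445_nt

/-- `t ^ 2 - D u ^ 2 = 4` has a solution with `u > 0`, `t + 2 < T`. -/
def Small (T D : ℕ) : Prop := ∃ t u : ℕ, 0 < u ∧ t ^ 2 = D * u ^ 2 + 4 ∧ t + 2 < T

theorem sq_of_coprime {a b c : ℕ} (h : Nat.Coprime a b) (e : a * b = c ^ 2) : ∃ v, a = v ^ 2 :=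
  exists_eq_pow_of_mul_eq_pow (by rw [show GCDMonoid.gcd a b = Nat.gcd a b from rfl, h]; simp) e

theorem factor (T D : ℕ) (hD : Squarefree D) (h : Small T D) :
    ∃ d₁ d₂ v₁ v₂ c : ℕ, d₁ * d₂ = D ∧ 0 < v₁ ∧ 0 < v₂ ∧ v₁ ^ 2 < T ∧ v₂ ^ 2 < T ∧
      d₂ * v₂ ^ 2 = d₁ * v₁ ^ 2 + c ∧ 0 < c ∧ c ≤ 4 ∧ ¬ IsSquare ((c : ℤ) * d₂) := by
  obtain ⟨t, u, hu, ht, hT⟩ := h
  have hD0 : 0 < D := Nat.pos_of_ne_zero hD.ne_zero
  induction t using Nat.strong_induction_on generalizing u with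
  | _ t ih =>
  have hDu : 0 < D * u ^ 2 := by positivity
  obtain ⟨A, rfl⟩ : ∃ A, t = A + 3 := ⟨t - 3, by
    have : 2 < t := by
      by_contra h
      have : t ^ 2 ≤ 2 ^ 2 := Nat.pow_le_pow_left (by omega) 2
      omega
    omega⟩
  have hAB : (A + 1) * (A + 5) = D * u ^ 2 := by nlinarith
  by_cases hsq : IsSquare (A + 5)
  · obtain ⟨s, hs⟩ := hsq
    have hs0 : 0 < s := Nat.pos_of_ne_zero (by rintro rfl; omega)
    obtain ⟨g, s', u', hg, hco, hs', hu'⟩ := Nat.exists_coprime' (Nat.gcd_pos_of_pos_left u hs0)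
    have h1 : (A + 1) * (s' * s') = D * u' ^ 2 := by
      refine Nat.eq_of_mul_eq_mul_left (by positivity : 0 < g ^ 2) ?_
      rw [hs, hs', hu'] at hAB
      linear_combination hAB
    have h2 : s' * s' ∣ D := by
      refine Nat.Coprime.dvd_of_dvd_mul_right (n := u' ^ 2) ?_ ⟨A + 1, by rw [← h1]; ring⟩
      exact (Nat.Coprime.mul_left hco hco).pow_right 2
    have h3 : s' = 1 := Nat.isUnit_iff.1 (hD s' h2)
    subst h3
    have hu0 : 0 < u' := Nat.pos_of_ne_zero (by rintro rfl; omega)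
    have hlt : s < A + 3 := by
      by_contra h
      nlinarith
    exact ih s hlt u' hu0 (by nlinarith) (by omega)
  · obtain ⟨d₁, d₂, A', hd₁, hco, hD', hA'⟩ := Nat.exists_coprime' (Nat.gcd_pos_of_pos_left (A + 1) hD0)
    have h1 : A' * (A + 5) = d₂ * u ^ 2 := by
      refine Nat.eq_of_mul_eq_mul_left hd₁ ?_
      rw [hA', hD'] at hAB
      linear_combination hAB
    obtain ⟨B', hB'⟩ : d₂ ∣ A + 5 := hco.dvd_of_dvd_mul_left ⟨u ^ 2, h1⟩
    have hd₂ : 0 < d₂ := Nat.pos_of_ne_zero (by rintro rfl; omega)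
    have h2 : A' * B' = u ^ 2 := by
      refine Nat.eq_of_mul_eq_mul_left hd₂ ?_
      rw [hB'] at h1
      linear_combination h1
    have hA0 : 0 < A' := Nat.pos_of_ne_zero (by rintro rfl; omega)
    obtain ⟨g, a, b, hg, hab, ha, hb⟩ := Nat.exists_coprime' (Nat.gcd_pos_of_pos_left B' hA0)
    obtain ⟨u', hu'⟩ : g ∣ u := (Nat.pow_dvd_pow_iff two_ne_zero).1
      ⟨a * b, by rw [← h2, ha, hb]; ring⟩
    have h3 : a * b = u' ^ 2 := by
      refine Nat.eq_of_mul_eq_mul_left (by positivity : 0 < g ^ 2) ?_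
      rw [ha, hb, hu'] at h2
      linear_combination h2
    obtain ⟨v₁, rfl⟩ := sq_of_coprime hab h3
    obtain ⟨v₂, rfl⟩ := sq_of_coprime hab.symm (by rw [mul_comm]; exact h3)
    subst ha hb
    have h4 : g * (d₂ * v₂ ^ 2) = g * (d₁ * v₁ ^ 2) + 4 := by linear_combination hA' - hB'
    have h5 : d₁ * v₁ ^ 2 < d₂ * v₂ ^ 2 := lt_of_mul_lt_mul_left (a := g) (by omega) hg.le
    obtain ⟨c, hc⟩ : ∃ c, d₂ * v₂ ^ 2 = d₁ * v₁ ^ 2 + c := ⟨_, (Nat.add_sub_cancel' h5.le).symm⟩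
    have h6 : g * c = 4 := by
      rw [hc, mul_add] at h4
      omega
    have hv₁ : 0 < v₁ := Nat.pos_of_ne_zero (by rintro rfl; simp at hA0)
    have hv₂ : 0 < v₂ := Nat.pos_of_ne_zero (by rintro rfl; simp at hB')
    refine ⟨d₁, d₂, v₁, v₂, c, by rw [hD', mul_comm], hv₁, hv₂, ?_, ?_, hc, by omega,
      by nlinarith, ?_⟩
    · have : v₁ ^ 2 ≤ v₁ ^ 2 * g * d₁ := by
        rw [mul_assoc]; exact Nat.le_mul_of_pos_right _ (by positivity)
      omega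
    · have : v₂ ^ 2 ≤ d₂ * (v₂ ^ 2 * g) := by
        rw [mul_left_comm]; exact Nat.le_mul_of_pos_right _ (by positivity)
      omega
    · rintro ⟨r, hr⟩
      have e : (2 * r * v₂) ^ 2 = ((A + 5 : ℕ) : ℤ) * (c : ℤ) ^ 2 := by
        have h6' : (g : ℤ) * c = 4 := by exact_mod_cast h6
        rw [hB']
        push_cast
        linear_combination (-4 * (v₂ : ℤ) ^ 2) * hr - (c * d₂ * (v₂ : ℤ) ^ 2) * h6'
      have := aniso (fun h => hsq (Int.isSquare_natCast_iff.1 h)) e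
      omega

/-- The `x` with `d ≤ x`, `Z ^ (2 k) ≤ d x ≤ X` and a small solution. -/
noncomputable def row (c : ℤ) (A k Z X d : ℕ) : Finset ℕ :=
  (Icc 1 X).filter fun x => ¬ IsSquare (c * d) ∧ d ≤ x ∧ Z ^ (2 * k) ≤ d * x ∧ d * x ≤ X ∧
    ∃ (v : ℤ) (w : ℕ), d * v ^ 2 - x * (w : ℤ) ^ 2 = c ∧ 0 < w ∧ w < Z ^ (A * k)

theorem card_row (c : ℤ) (A k Z X d : ℕ) (hd : 0 < d) (hc : |c| ≤ 4)
    (hk : k = 102 * (4 * A + 6) ^ 2) (hZ : 6 * k ≤ Z) (hX : X ≤ Z ^ (2 * k + 2)) :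
    ((row c A k Z X d).card : ℝ) ≤ 42 * A * k ^ 2 * X / Z * (d : ℝ)⁻¹ := by
  have hk0 : 17 ≤ k := by
    have : 0 < (4 * A + 6) ^ 2 := by positivity
    omega
  have hZ0 : 0 < Z := by omega
  rcases (row c A k Z X d).eq_empty_or_nonempty with h0 | ⟨x₀, hx₀⟩
  · rw [h0, card_empty, Nat.cast_zero]; positivity
  have hbig : ∀ x ∈ row c A k Z X d, Z ^ k ≤ x := by
    intro x hx
    obtain ⟨-, -, h1, h2, -⟩ := mem_filter.1 hx
    refine (Nat.pow_le_pow_iff_left two_ne_zero).1 ?_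
    calc (Z ^ k) ^ 2 = Z ^ (2 * k) := by ring
      _ ≤ d * x := h2
      _ ≤ x ^ 2 := by nlinarith
  have hle : ∀ x ∈ row c A k Z X d, x ≤ X / d := by
    intro x hx
    obtain ⟨-, -, -, -, h3, -⟩ := mem_filter.1 hx
    exact (Nat.le_div_iff_mul_le hd).2 (by rwa [mul_comm])
  have h1 := cover (row c A k Z X d) 0 (X / d) (Z ^ 17) (21 * k * Z ^ 16 * (A * k))
    (by positivity) (fun x hx => ⟨Nat.zero_le _, by simpa using hle x hx⟩) (fun x₁ hx₁ => by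
      obtain ⟨g1, g2, -, g3, -⟩ := mem_filter.1 hx₁
      refine interval d c A k Z x₁ hd hc g2 hk hZ (hbig x₁ hx₁) ((mem_Icc.1 g1).2.trans hX) g3 _
        (fun x hx => (mem_filter.1 hx).2) fun x hx => ?_
      exact (mem_filter.1 (mem_filter.1 hx).1).2.2.2.2.2)
  have h2 : Z ^ 17 ≤ X / d :=
    (Nat.pow_le_pow_right hZ0 hk0).trans ((hbig x₀ hx₀).trans (hle x₀ hx₀))
  have h3 : 1 ≤ X / d / Z ^ 17 := (Nat.le_div_iff_mul_le (by positivity)).2 (by simpa using h2)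
  have h4 : (row c A k Z X d).card ≤ 21 * k * Z ^ 16 * (A * k) * (2 * (X / d / Z ^ 17)) :=
    h1.trans (Nat.mul_le_mul_left _ (by omega))
  have h5 : ((X / d / Z ^ 17 : ℕ) : ℝ) ≤ X / d / (Z : ℝ) ^ 17 := by
    refine Nat.cast_div_le.trans ?_
    push_cast
    gcongr
    exact Nat.cast_div_le
  have hZr : (0 : ℝ) < Z := by exact_mod_cast hZ0
  calc ((row c A k Z X d).card : ℝ)
      ≤ 21 * k * Z ^ 16 * (A * k) * (2 * ((X / d / Z ^ 17 : ℕ) : ℝ)) := by exact_mod_cast h4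
    _ ≤ 21 * k * Z ^ 16 * (A * k) * (2 * (X / d / (Z : ℝ) ^ 17)) := by gcongr
    _ = _ := by field_simp; ring

theorem sum_inv_le (X : ℕ) : ∑ d ∈ Icc 1 X, (d : ℝ)⁻¹ ≤ 1 + Real.log X := by
  have := harmonic_le_one_add_log X
  rw [harmonic_eq_sum_Icc] at this
  push_cast at this
  exact this

theorem card_squarefree_small (A k Z X : ℕ) (hk : k = 102 * (4 * A + 6) ^ 2) (hZ : 6 * k ≤ Z)
    (hX : X ≤ Z ^ (2 * k + 2)) :
    (((Icc 1 X).filter fun D => Squarefree D ∧ Small (Z ^ (2 * (A * k))) D).card : ℝ) ≤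
      Z ^ (2 * k) + 9 * (42 * A * k ^ 2 * X / Z * (1 + Real.log X)) := by
  have hsub : ((Icc 1 X).filter fun D => Squarefree D ∧ Small (Z ^ (2 * (A * k))) D) ⊆
      range (Z ^ (2 * k)) ∪ (Icc (-4 : ℤ) 4).biUnion fun c => (Icc 1 X).biUnion fun d =>
        (row c A k Z X d).image fun x => d * x := by
    intro D hD
    obtain ⟨hD, hsf, hs⟩ := mem_filter.1 hD
    rw [mem_Icc] at hD
    rw [mem_union, mem_range]
    refine (lt_or_ge D (Z ^ (2 * k))).imp_right fun hge => ?_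
    obtain ⟨d₁, d₂, v₁, v₂, c, rfl, h1, h2, h3, h4, h5, h6, h7, h8⟩ := factor _ _ hsf hs
    have hd₁ : 0 < d₁ := Nat.pos_of_ne_zero (by rintro rfl; omega)
    have hd₂ : 0 < d₂ := Nat.pos_of_ne_zero (by rintro rfl; omega)
    have g1 : d₁ ≤ X := (Nat.le_mul_of_pos_right _ hd₂).trans hD.2
    have g2 : d₂ ≤ X := (Nat.le_mul_of_pos_left _ hd₁).trans hD.2
    have h5' : (d₂ : ℤ) * (v₂ : ℤ) ^ 2 = d₁ * (v₁ : ℤ) ^ 2 + c := by exact_mod_cast h5
    have hlt : ∀ v : ℕ, v ^ 2 < Z ^ (2 * (A * k)) → v < Z ^ (A * k) := fun v hv =>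
      lt_of_pow_lt_pow_left₀ 2 (Nat.zero_le _) (by rwa [← pow_mul, mul_comm (A * k)])
    simp only [mem_biUnion, mem_image, mem_Icc, row, mem_filter]
    rcases le_total d₁ d₂ with hle | hle
    · refine ⟨-c, by omega, d₁, ⟨hd₁, g1⟩, d₂, ⟨⟨hd₂, g2⟩, ?_, hle, hge, hD.2, v₁, v₂,
        by linear_combination -h5', h2, hlt _ h4⟩, rfl⟩
      rintro ⟨r, hr⟩
      have : (0 : ℤ) < c * d₁ := by positivity
      nlinarith [mul_self_nonneg r]
    · exact ⟨c, by omega, d₂, ⟨hd₂, g2⟩, d₁, ⟨⟨hd₁, g1⟩, h8, hle, by rwa [mul_comm d₂],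
        by rw [mul_comm]; exact hD.2, v₂, v₁, by linear_combination h5', h1, hlt _ h3⟩,
        mul_comm _ _⟩
  have h1 := (card_le_card hsub).trans ((card_union_le _ _).trans (Nat.add_le_add_left
    (card_biUnion_le.trans (sum_le_sum fun c _ => card_biUnion_le.trans
      (sum_le_sum fun d _ => card_image_le))) _))
  rw [card_range] at h1
  refine (Nat.cast_le.2 h1).trans ?_
  push_cast
  gcongr
  calc ∑ c ∈ Icc (-4 : ℤ) 4, ∑ d ∈ Icc 1 X, ((row c A k Z X d).card : ℝ)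
      ≤ ∑ _c ∈ Icc (-4 : ℤ) 4, 42 * A * k ^ 2 * X / Z * (1 + Real.log X) := by
        refine sum_le_sum fun c hc => ?_
        refine (sum_le_sum fun d hd => card_row c A k Z X d (mem_Icc.1 hd).1
          (abs_le.2 (mem_Icc.1 hc)) hk hZ hX).trans ?_
        rw [← mul_sum]
        gcongr
        exact sum_inv_le X
    _ = _ := by simp

theorem card_sq_dvd (K X : ℕ) (hK : 0 < K) :
    (((Icc 1 X).filter fun D => ∃ f, K < f ∧ f ^ 2 ∣ D).card : ℝ) ≤ X / K := by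
  have hsub : ((Icc 1 X).filter fun D => ∃ f, K < f ∧ f ^ 2 ∣ D) ⊆
      (Ioc K (K + X)).biUnion fun f => (Ioc 0 X).filter fun D => f ^ 2 ∣ D := by
    intro D hD
    obtain ⟨hD, f, hf, hfD⟩ := mem_filter.1 hD
    rw [mem_Icc] at hD
    have := Nat.le_of_dvd hD.1 hfD
    exact mem_biUnion.2 ⟨f, mem_Ioc.2 ⟨hf, by nlinarith⟩, mem_filter.2 ⟨mem_Ioc.2 hD, hfD⟩⟩
  refine (Nat.cast_le.2 ((card_le_card hsub).trans card_biUnion_le)).trans ?_
  push_cast
  calc ∑ f ∈ Ioc K (K + X), (((Ioc 0 X).filter fun D => f ^ 2 ∣ D).card : ℝ)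
      ≤ ∑ f ∈ Ioc K (K + X), X * ((f : ℝ) ^ 2)⁻¹ := by
        refine sum_le_sum fun f _ => ?_
        rw [Nat.Ioc_filter_dvd_card_eq_div]
        exact Nat.cast_div_le.trans (by push_cast; rw [div_eq_mul_inv])
    _ ≤ X * ((K : ℝ)⁻¹ - ((K + X : ℕ) : ℝ)⁻¹) := by
        rw [← mul_sum]
        gcongr
        exact sum_Ioc_inv_sq_le_sub hK.ne' (Nat.le_add_right _ _)
    _ ≤ X / K := by
        rw [div_eq_mul_inv]
        gcongr
        exact sub_le_self _ (by positivity)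

theorem card_small (A k K X : ℕ) (hA : 1 ≤ A) (hk : k = 102 * (4 * A + 6) ^ 2) (hK : 6 * k ≤ K)
    (h1 : K ^ (4 * k + 2) ≤ X) (h2 : X ≤ K ^ (4 * k + 4)) :
    (((Icc 1 X).filter (Small (K ^ (4 * (A * k))))).card : ℝ) ≤
      380 * k ^ 3 * (1 + Real.log X) * X / K := by
  have hk0 : 1 ≤ k := by nlinarith
  have hAk : A ≤ k := by nlinarith
  have hK0 : 0 < K := by omega
  have hKr : (0 : ℝ) < K := by exact_mod_cast hK0
  set B := (Icc 1 X).filter fun D => Squarefree D ∧ Small ((K ^ 2) ^ (2 * (A * k))) D with hB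
  have hsub : (Icc 1 X).filter (Small (K ^ (4 * (A * k)))) ⊆
      ((Icc 1 K).biUnion fun f => B.image fun D => f ^ 2 * D) ∪
        (Icc 1 X).filter fun D => ∃ f, K < f ∧ f ^ 2 ∣ D := by
    intro D hD
    obtain ⟨hD, t, u, hu, ht, hT⟩ := mem_filter.1 hD
    obtain ⟨a, f, ha, hf, rfl, hsq⟩ := Nat.sq_mul_squarefree_of_pos (mem_Icc.1 hD).1
    rw [mem_union]
    rcases le_or_gt f K with h | h
    · refine Or.inl (mem_biUnion.2 ⟨f, mem_Icc.2 ⟨hf, h⟩, mem_image.2 ⟨a, mem_filter.2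
        ⟨mem_Icc.2 ⟨ha, (Nat.le_mul_of_pos_left _ (by positivity)).trans (mem_Icc.1 hD).2⟩, hsq,
          t, f * u, by positivity, by rw [ht]; ring, ?_⟩, rfl⟩⟩)
      rwa [← pow_mul, ← mul_assoc]
    · exact Or.inr (mem_filter.2 ⟨hD, f, h, Dvd.intro _ rfl⟩)
  have h3 := (card_le_card hsub).trans ((card_union_le _ _).trans (Nat.add_le_add_right
    (card_biUnion_le_card_mul _ _ B.card fun f _ => card_image_le) _))
  have h4 := card_squarefree_small A k (K ^ 2) X hk (by nlinarith)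
    (by rw [← pow_mul]; exact h2.trans (le_of_eq (by ring_nf)))
  rw [← hB] at h4
  have h5 := card_sq_dvd K X hK0
  have hX1 : 1 ≤ X := (Nat.one_le_pow _ _ hK0).trans h1
  have hL : 0 ≤ Real.log X := Real.log_natCast_nonneg X
  have h1r : (K : ℝ) ^ (4 * k + 2) ≤ X := by exact_mod_cast h1
  have h6 : (K : ℝ) * ((K : ℝ) ^ 2) ^ (2 * k) ≤ X / K := by
    rw [le_div_iff₀ hKr]
    exact le_trans (le_of_eq (by ring)) h1r
  have hkr : (1 : ℝ) ≤ k := by exact_mod_cast hk0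
  have hAr : (A : ℝ) ≤ k := by exact_mod_cast hAk
  have h7 : (1 : ℝ) ≤ k ^ 3 * (1 + Real.log X) :=
    one_le_mul_of_one_le_of_one_le (one_le_pow₀ hkr) (by linarith)
  have h8 : (0 : ℝ) ≤ X / K := by positivity
  simp only [Nat.card_Icc, Nat.add_sub_cancel] at h3
  push_cast at h4
  calc (((Icc 1 X).filter (Small (K ^ (4 * (A * k))))).card : ℝ)
      ≤ K * B.card + X / K := by
        refine (Nat.cast_le.2 h3).trans ?_
        push_cast
        gcongr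
    _ ≤ K * (((K : ℝ) ^ 2) ^ (2 * k) + 9 * (42 * k * k ^ 2 * X / K ^ 2 * (1 + Real.log X))) +
        X / K := by
        gcongr
        refine h4.trans ?_
        gcongr
    _ = K * ((K : ℝ) ^ 2) ^ (2 * k) + 378 * (k ^ 3 * (1 + Real.log X)) * (X / K) + X / K := by
        field_simp
        ring
    _ ≤ 380 * (k ^ 3 * (1 + Real.log X)) * (X / K) := by nlinarith
    _ = _ := by ring

end Pool.Agent.MP_070445_nt
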