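import Mathlib

set_option autoImplicit false

namespace Pool.Agent.MP_070445_nt

/-- `D` is a positive fundamental discriminant. -/
def IsFund (D : ℕ) : Prop :=
  (D % 4 = 1 ∧ Squarefree D) ∨
    (D % 4 = 0 ∧ ((D / 4) % 4 = 2 ∨ (D / 4) % 4 = 3) ∧ Squarefree (D / 4))

/-- Some unit `(t + u √D) / 2` with `t, u > 0`, `t ^ 2 - D u ^ 2 = ± 4` is at most `B`; for a
discriminant `D` this says that the fundamental unit is at most `B`. -/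
def UnitLe (D : ℕ) (B : ℝ) : Prop :=
  ∃ t u : ℕ, 0 < t ∧ 0 < u ∧
    ((t : ℤ) ^ 2 - (D : ℤ) * (u : ℤ) ^ 2 = 4 ∨ (t : ℤ) ^ 2 - (D : ℤ) * (u : ℤ) ^ 2 = -4) ∧
    ((t : ℝ) + (u : ℝ) * Real.sqrt (D : ℝ)) / 2 ≤ B

end Pool.Agent.MP_070445_nt
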