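import Pool.Agent.MP_070445_nt.Pade

/-!
In a short interval few `x` admit a small solution of `d v ^ 2 - x w ^ 2 = c`.
-/

set_option autoImplicit false
open Polynomial Finset

namespace Pool.Agent.MP_070445_nt

theorem cover (S : Finset ℕ) (x₀ L Y n : ℕ) (hY : 0 < Y) (hS : ∀ x ∈ S, x₀ ≤ x ∧ x ≤ x₀ + L)
    (h : ∀ x₁ ∈ S, (S.filter fun x => x₁ ≤ x ∧ x ≤ x₁ + Y).card ≤ n) :
    S.card ≤ n * (L / Y + 1) := by
  have := card_le_mul_card_image_of_maps_to (f := fun x => (x - x₀) / Y) (s := S)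
    (t := range (L / Y + 1)) (fun x hx => by
      have := hS x hx
      exact mem_range.2 (Nat.lt_succ_of_le (Nat.div_le_div_right (by omega)))) n ?_
  · simpa using this
  · intro b _
    rcases (S.filter fun x => (x - x₀) / Y = b).eq_empty_or_nonempty with h0 | hne
    · simp [h0]
    · obtain ⟨x₁, hx₁, hmin⟩ := exists_min_image _ id hne
      rw [mem_filter] at hx₁
      refine le_trans (card_le_card fun x hx => ?_) (h x₁ hx₁.1)
      have h1 : x₁ ≤ x := hmin x hx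
      rw [mem_filter] at hx ⊢
      refine ⟨hx.1, h1, ?_⟩
      have a1 := Nat.div_add_mod (x - x₀) Y
      have a2 := Nat.div_add_mod (x₁ - x₀) Y
      have a3 := Nat.mod_lt (x - x₀) hY
      have := hS x hx.1
      have := hS x₁ hx₁.1
      rw [hx.2] at a1
      rw [hx₁.2] at a2
      omega

theorem aniso {κ a r : ℤ} (hκ : ¬ IsSquare κ) (h : a ^ 2 = κ * r ^ 2) : r = 0 := by
  by_contra hr
  have : r ∣ a := (Int.pow_dvd_pow_iff two_ne_zero).1 ⟨κ, by rw [h]; ring⟩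
  obtain ⟨b, rfl⟩ := this
  refine hκ ⟨b, ?_⟩
  have : r ^ 2 * κ = r ^ 2 * (b * b) := by linear_combination -h
  exact mul_left_cancel₀ (pow_ne_zero 2 hr) this

theorem parity {κ c : ℤ} (hκ : ¬ IsSquare κ) (hc : c ≠ 0) (A R S : ℤ[X])
    (h : A ^ 2 - C κ * R ^ 2 = C c * X * S ^ 2) : S = 0 := by
  by_contra hS
  have hc' : (C c : ℤ[X]) ≠ 0 := by simpa using hc
  have h1 : (C c * X * S ^ 2).natDegree = 1 + 2 * S.natDegree := by
    rw [natDegree_mul (mul_ne_zero hc' X_ne_zero) (pow_ne_zero 2 hS), natDegree_C_mul_X _ hc,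
      natDegree_pow]
  set n := max A.natDegree R.natDegree with hn
  have hA : A.natDegree ≤ n := le_max_left _ _
  have hR : R.natDegree ≤ n := le_max_right _ _
  have h2 : (A ^ 2 - C κ * R ^ 2).natDegree ≤ 2 * n := by
    refine (natDegree_sub_le _ _).trans (max_le ?_ ?_)
    · exact natDegree_pow_le_of_le 2 hA
    · exact (natDegree_C_mul_le _ _).trans (natDegree_pow_le_of_le 2 hR)
  have h3 : (A ^ 2 - C κ * R ^ 2).coeff (2 * n) = A.coeff n ^ 2 - κ * R.coeff n ^ 2 := by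
    rw [coeff_sub, coeff_C_mul, coeff_pow_of_natDegree_le hA, coeff_pow_of_natDegree_le hR]
  rw [h] at h2 h3
  rw [coeff_eq_zero_of_natDegree_lt (by omega)] at h3
  have hr : R.coeff n = 0 := aniso (a := A.coeff n) hκ (by linear_combination -h3)
  have ha : A.coeff n = 0 := by
    rw [hr] at h3
    exact pow_eq_zero_iff (two_ne_zero) |>.1 (by linear_combination -h3)
  have hn0 : n ≠ 0 := by omega
  rcases max_choice A.natDegree R.natDegree with e | e
  · rw [← hn] at e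
    rw [e] at ha hn0
    exact hn0 (by rw [leadingCoeff_eq_zero.1 ha]; simp)
  · rw [← hn] at e
    rw [e] at hr hn0
    exact hn0 (by rw [leadingCoeff_eq_zero.1 hr]; simp)

theorem card_le_natDegree (H : ℤ[X]) (hH : H ≠ 0) (S : Finset ℕ)
    (h : ∀ x ∈ S, H.eval (x : ℤ) = 0) : S.card ≤ H.natDegree := by
  rw [← card_image_of_injective S (Nat.cast_injective (R := ℤ))]
  refine card_le_degree_of_subset_roots fun z hz => ?_
  obtain ⟨x, hx, rfl⟩ := mem_image.1 hz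
  exact (mem_roots hH).2 (h x hx)

theorem eval_map_int (R : ℤ[X]) (x : ℤ) :
    (R.map (Int.castRingHom ℝ)).eval (x : ℝ) = ((R.eval x : ℤ) : ℝ) := by
  rw [eval_map]
  exact eval₂_at_apply (Int.castRingHom ℝ) x

/-- Few values of a polynomial in a short interval are small squares. -/
theorem squares (G : ℤ[X]) (k Z x₀ : ℕ) (hk : 3 ≤ k) (hZ : 6 * k ≤ Z) (hG : G.natDegree ≤ k)
    (hsq : ∀ A B : ℤ[X], B ≠ 0 → A ^ 2 - G * B ^ 2 ≠ 0) (S : Finset ℕ)
    (hS : ∀ x ∈ S, x₀ ≤ x ∧ x ≤ x₀ + Z ^ 17)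
    (hw : ∀ x ∈ S, ∃ w : ℤ, w ^ 2 = G.eval (x : ℤ) ∧ |w| ≤ (Z : ℤ) ^ k) :
    S.card ≤ 21 * k * Z ^ 16 := by
  classical
  have hG0 : G ≠ 0 := by
    rintro rfl
    exact hsq 0 1 one_ne_zero (by simp)
  set Gr := G.map (Int.castRingHom ℝ) with hGr
  set Gc := Gr.map (algebraMap ℝ ℂ) with hGc
  have hGr0 : Gr ≠ 0 := (Polynomial.map_ne_zero_iff (RingHom.injective_int _)).2 hG0
  have hGc0 : Gc ≠ 0 := (Polynomial.map_ne_zero_iff (algebraMap ℝ ℂ).injective).2 hGr0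
  have hdr : Gr.natDegree ≤ k := natDegree_map_le.trans hG
  have hdc : Gc.natDegree ≤ k := natDegree_map_le.trans hdr
  have hZ2 : 2 ≤ Z := by omega
  have hZr : (2 : ℝ) ≤ Z := by exact_mod_cast hZ2
  let bad : ℕ → Prop := fun x => ∃ z ∈ Gc.roots.toFinset, ‖z - (x : ℂ)‖ ≤ (Z : ℝ) ^ 16
  have hbad : (S.filter bad).card ≤ k * (2 * Z ^ 16 + 1) := by
    have hsub : S.filter bad ⊆ Gc.roots.toFinset.biUnion fun z =>
        S.filter fun x => ‖z - (x : ℂ)‖ ≤ (Z : ℝ) ^ 16 := by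
      intro x hx
      obtain ⟨hx, z, hz, hzx⟩ := mem_filter.1 hx
      exact mem_biUnion.2 ⟨z, hz, mem_filter.2 ⟨hx, hzx⟩⟩
    refine (card_le_card hsub).trans ((card_biUnion_le_card_mul _ _ (2 * Z ^ 16 + 1) ?_).trans ?_)
    · intro z _
      rcases (S.filter fun x : ℕ => ‖z - (x : ℂ)‖ ≤ (Z : ℝ) ^ 16).eq_empty_or_nonempty with h0 | hne
      · simp [h0]
      · obtain ⟨x₁, hx₁, hmin⟩ := exists_min_image _ id hne
        refine (card_le_card (t := Icc x₁ (x₁ + 2 * Z ^ 16)) fun x hx => ?_).trans (by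
          rw [Nat.card_Icc]; omega)
        have h1 : x₁ ≤ x := hmin x hx
        refine mem_Icc.2 ⟨h1, ?_⟩
        have h2 := (mem_filter.1 hx).2
        have h3 := (mem_filter.1 hx₁).2
        have h4 : ‖(x : ℂ) - x₁‖ ≤ 2 * (Z : ℝ) ^ 16 := by
          have : (x : ℂ) - x₁ = (z - x₁) - (z - x) := by ring
          rw [this]
          exact (norm_sub_le _ _).trans (by linarith)
        have h5 := (Complex.re_le_norm _).trans h4
        simp only [Complex.sub_re, Complex.natCast_re] at h5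
        exact_mod_cast (by linarith : (x : ℝ) ≤ x₁ + 2 * (Z : ℝ) ^ 16)
    · exact Nat.mul_le_mul_right _
        ((Multiset.toFinset_card_le _).trans ((card_roots' _).trans hdc))
  have hgood : (S.filter fun x => ¬ bad x).card ≤ 9 * k * (Z ^ 17 / Z + 1) := by
    refine cover _ x₀ (Z ^ 17) Z _ (by omega) (fun x hx => hS x (mem_filter.1 hx).1) ?_
    intro x₁ hx₁
    obtain ⟨hx₁S, hx₁b⟩ := mem_filter.1 hx₁
    obtain ⟨m, hm⟩ : ∃ m, m + 1 = 4 * k := ⟨4 * k - 1, by omega⟩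
    obtain ⟨A, B, hA, hB, hB0, hAB⟩ := padeSqrt Gr x₁ Z m (2 * k) (20 * k + 9) (6 * k + 2)
      (2 * k) 15 1 2 hZ2 (by omega) (by omega)
      (fun z hz h0 => hx₁b ⟨z, Multiset.mem_toFinset.2 ((mem_roots hGc0).2 h0), by simpa using hz⟩)
      (by
        obtain ⟨w, hw1, hw2⟩ := hw x₁ hx₁S
        rw [eval_map_int, ← hw1]
        have a1 : |(w : ℝ)| ≤ (Z : ℝ) ^ k := by exact_mod_cast hw2
        have a2 : (2 : ℝ) ^ Gr.natDegree ≤ (Z : ℝ) ^ (2 * k) :=
          (pow_le_pow_left₀ (by norm_num) hZr _).trans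
            (pow_le_pow_right₀ (by linarith) (by omega))
        push_cast
        rw [abs_pow]
        calc |(w : ℝ)| ^ 2 * 2 ^ Gr.natDegree ≤ ((Z : ℝ) ^ k) ^ 2 * (Z : ℝ) ^ (2 * k) := by gcongr
          _ = _ := by ring)
      (by rw [hm]; nlinarith) (by omega) (by omega)
    refine (card_le_natDegree _ (hsq A B hB0) _ fun x hx => ?_).trans ?_
    · obtain ⟨hx, h1, h2⟩ := mem_filter.1 hx
      obtain ⟨w, hw1, -⟩ := hw x (mem_filter.1 hx).1
      obtain ⟨φ, hφ, -, hφ2⟩ := hAB x (by rw [abs_le, pow_one]; constructor <;> omega)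
        (by rw [eval_map_int, ← hw1]; positivity)
      rw [eval_map_int, ← hw1] at hφ
      push_cast at hφ
      obtain ⟨w', hw', hφ'⟩ : ∃ w' : ℤ, w' ^ 2 = w ^ 2 ∧ φ = w' := by
        rcases sq_eq_sq_iff_eq_or_eq_neg.1 hφ with e | e
        · exact ⟨w, rfl, e⟩
        · exact ⟨-w, by ring, by rw [e]; simp⟩
      rw [hφ'] at hφ2
      have h0 : A.eval (x : ℤ) + w' * B.eval (x : ℤ) = 0 := by
        by_contra h0
        have : (1 : ℝ) ≤ |((A.eval (x : ℤ) : ℤ) : ℝ) + w' * (B.eval (x : ℤ) : ℤ)| := by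
          exact_mod_cast Int.one_le_abs h0
        nlinarith
      simp only [eval_sub, eval_mul, eval_pow]
      rw [← hw1, ← hw', eq_neg_of_add_eq_zero_left h0]
      ring
    · refine (natDegree_sub_le _ _).trans (max_le ?_ ?_)
      · exact (natDegree_pow_le_of_le 2 hA).trans (by omega)
      · have := natDegree_pow_le_of_le 2 hB
        exact natDegree_mul_le.trans (by omega)
  have e : Z ^ 17 / Z = Z ^ 16 := by
    rw [pow_succ, Nat.mul_div_cancel _ (by omega)]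
  have h1 : 1 ≤ Z ^ 16 := Nat.one_le_pow _ _ (by omega)
  rw [e] at hgood
  rw [← card_filter_add_card_filter_not bad]
  nlinarith

/-- Solutions of about the same size in a short interval. -/
theorem interval_size (d : ℕ) (c : ℤ) (A k Z x₀ s : ℕ) (hd : 0 < d) (hc : |c| ≤ 4)
    (hcd : ¬ IsSquare (c * d)) (hk : k = 102 * (4 * A + 6) ^ 2) (hZ : 6 * k ≤ Z) (hs : s < A * k)
    (h1 : Z ^ k ≤ x₀) (h2 : x₀ ≤ Z ^ (2 * k + 2)) (h3 : Z ^ (2 * k) ≤ d * x₀) (S : Finset ℕ)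
    (hS : ∀ x ∈ S, x₀ ≤ x ∧ x ≤ x₀ + Z ^ 17)
    (hw : ∀ x ∈ S, ∃ (v : ℤ) (w : ℕ), d * v ^ 2 - x * (w : ℤ) ^ 2 = c ∧ Z ^ s ≤ w ∧
      w < Z ^ (s + 1)) : S.card ≤ 21 * k * Z ^ 16 := by
  obtain ⟨J, hJ⟩ : ∃ J, J = 4 * A + 6 := ⟨_, rfl⟩
  obtain ⟨a, ha⟩ : ∃ a, a = J ^ 2 := ⟨_, rfl⟩
  rw [← hJ, ← ha] at hk
  have hJa : 6 * J ≤ a := by rw [ha]; nlinarith
  have hZ2 : 2 ≤ Z := by omega
  have hZr : (2 : ℝ) ≤ Z := by exact_mod_cast hZ2
  have hZ1 : (1 : ℝ) ≤ Z := by linarith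
  have hdr : (0 : ℝ) < d := by exact_mod_cast hd
  have hc0 : c ≠ 0 := by
    rintro rfl
    exact hcd (by simp)
  obtain ⟨n, hn⟩ : ∃ n, n + 4 + 17 * a = k + s := ⟨k + s - 4 - 17 * a, by omega⟩
  obtain ⟨l, hl⟩ : ∃ l, l + 18 = k := ⟨k - 18, by omega⟩
  have hsJ : 4 * s + 6 * k ≤ J * k := by rw [hJ]; nlinarith
  obtain ⟨P, Q, hP, hQ, hQ0, hPQ⟩ := padeSqrt (C (d : ℝ)⁻¹ * X) x₀ Z a J n
    (s + 4 + 17 * (a + J)) (k + 2) l 17 (s + 3) hZ2 (by omega) (by omega)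
    (fun z hz h0 => by
      have hz0 : z = 0 := by simpa [hd.ne'] using h0
      rw [hz0, zero_sub, norm_neg] at hz
      have a1 : (x₀ : ℝ) ≤ (Z : ℝ) ^ (17 + l) := by simpa using hz
      have a2 : x₀ ≤ Z ^ (17 + l) := by exact_mod_cast a1
      have a3 : Z ^ (17 + l) < Z ^ k := Nat.pow_lt_pow_right (by omega) (by omega)
      omega)
    (by
      rw [natDegree_C_mul_X _ (by positivity), eval_mul, eval_C, eval_X, pow_one]
      have a1 : (x₀ : ℝ) ≤ (Z : ℝ) ^ (2 * k + 2) := by exact_mod_cast h2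
      have a2 : (d : ℝ)⁻¹ ≤ 1 := inv_le_one_of_one_le₀ (by exact_mod_cast hd)
      push_cast
      rw [abs_of_nonneg (by positivity)]
      calc (d : ℝ)⁻¹ * x₀ * 2 ≤ 1 * (Z : ℝ) ^ (2 * k + 2) * (Z : ℝ) ^ 2 := by
            gcongr; nlinarith
        _ = _ := by ring)
    (by
      have e : n = s + 4 + 17 * (a + J) + (68 * a - 17 * J - 8) := by omega
      obtain ⟨δ, hδ⟩ : ∃ δ, δ = 68 * a - 17 * J - 8 := ⟨_, rfl⟩
      have hδ' : 51 * a ≤ δ := by omega
      rw [← hδ] at e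
      have a1 : 2 * (s + 4 + 17 * (a + J) + n + (k + 2) + 3) ≤ J * k := by omega
      have a2 : 2 * (J * (s + 4 + 17 * (a + J) + n + (k + 2) + 3)) ≤ a * k := by
        calc _ = J * (2 * (s + 4 + 17 * (a + J) + n + (k + 2) + 3)) := by ring
          _ ≤ J * (J * k) := Nat.mul_le_mul_left _ a1
          _ = a * k := by rw [ha]; ring
      have a3 : a * k ≤ 2 * (δ * (a + 1)) := by rw [hk]; nlinarith
      have a4 : n * (a + 1) = (s + 4 + 17 * (a + J)) * (a + 1) + δ * (a + 1) := by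
        rw [← add_mul, ← e]
      omega)
    (by omega)
    (by
      have a1 : J * k = l * J + 18 * J := by rw [← hl]; ring
      have a3 : J * 36 ≤ J * k := Nat.mul_le_mul_left _ (by omega)
      omega)
  refine squares (C c * (C (d : ℤ) * P ^ 2 - X * Q ^ 2)) k Z x₀ (by omega) hZ ?_ ?_ S hS ?_
  · refine (natDegree_C_mul_le _ _).trans ((natDegree_sub_le _ _).trans (max_le ?_ ?_))
    · exact (natDegree_C_mul_le _ _).trans ((natDegree_pow_le_of_le 2 hP).trans (by omega))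
    · have := natDegree_pow_le_of_le 2 hQ
      have := natDegree_X_le (R := ℤ)
      exact natDegree_mul_le.trans (by omega)
  · intro A' B' hB' h0
    have := parity hcd (neg_ne_zero.2 hc0) A' (P * B') (Q * B') (by
      rw [C_mul, C_neg]; linear_combination h0)
    exact mul_ne_zero hQ0 hB' this
  · intro x hx
    obtain ⟨v₀, w, hv₀, hw1, hw2⟩ := hw x hx
    have hxS := hS x hx
    obtain ⟨φ, hφ, hQb, hφ2⟩ := hPQ x (by
      have : (x : ℤ) ≤ x₀ + (Z : ℤ) ^ 17 := by exact_mod_cast hxS.2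
      have : (0 : ℤ) ≤ (Z : ℤ) ^ 17 := by positivity
      rw [abs_le]; constructor <;> omega) (by simp only [eval_mul, eval_C, eval_X]; positivity)
    simp only [eval_mul, eval_C, eval_X, Int.cast_natCast] at hφ
    obtain ⟨v, hv, hvφ⟩ : ∃ v : ℤ, d * v ^ 2 - x * (w : ℤ) ^ 2 = c ∧ 0 ≤ (v : ℝ) * φ := by
      rcases le_total 0 ((v₀ : ℝ) * φ) with e | e
      · exact ⟨v₀, hv₀, e⟩
      · exact ⟨-v₀, by rw [← hv₀]; ring, by push_cast; linarith⟩
    set p := P.eval (x : ℤ)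
    set q := Q.eval (x : ℤ)
    have hwpos : 0 < w := lt_of_lt_of_le (by positivity) hw1
    have hwr : (0 : ℝ) < w := by exact_mod_cast hwpos
    have hw1r : (Z : ℝ) ^ s ≤ w := by exact_mod_cast hw1
    have hw2r : (w : ℝ) < (Z : ℝ) ^ (s + 1) := by exact_mod_cast hw2
    have hQr : |(q : ℝ)| * (Z : ℝ) ^ 3 ≤ (Z : ℝ) ^ k * w := by
      have : |(q : ℝ)| ≤ (Z : ℝ) ^ (1 + n + 17 * a) := by exact_mod_cast hQb
      calc |(q : ℝ)| * (Z : ℝ) ^ 3 ≤ (Z : ℝ) ^ (1 + n + 17 * a) * (Z : ℝ) ^ 3 := by gcongr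
        _ = (Z : ℝ) ^ k * (Z : ℝ) ^ s := by
          rw [← pow_add, ← pow_add]; congr 1; omega
        _ ≤ _ := by gcongr
    have hZ3 : (8 : ℝ) ≤ (Z : ℝ) ^ 3 := by
      calc (8 : ℝ) = 2 ^ 3 := by norm_num
        _ ≤ _ := by gcongr
    have hcr : |(c : ℝ)| ≤ 4 := by exact_mod_cast hc
    have hθ : |(v : ℝ) - w * φ| * ((Z : ℝ) ^ k * w) ≤ 4 := by
      have a1 : ((v : ℝ) - w * φ) * (d * (v + w * φ)) = c := by
        have : (d : ℝ) * v ^ 2 - x * (w : ℝ) ^ 2 = c := by exact_mod_cast hv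
        have e : (d : ℝ) * φ ^ 2 = x := by rw [hφ]; field_simp
        linear_combination this - (w : ℝ) ^ 2 * e
      have a2 : (Z : ℝ) ^ k * w ≤ |(d : ℝ) * (v + w * φ)| := by
        rw [← sq_le_sq₀ (by positivity) (abs_nonneg _), sq_abs]
        have b1 : ((Z : ℝ) ^ k) ^ 2 ≤ d * x := by
          have : Z ^ (2 * k) ≤ d * x := h3.trans (Nat.mul_le_mul_left _ hxS.1)
          rw [← pow_mul, mul_comm k]
          exact_mod_cast this
        have e : (d : ℝ) * x = (d * φ) ^ 2 := by rw [mul_pow, hφ]; field_simp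
        have b2 : (w * φ) ^ 2 ≤ ((v : ℝ) + w * φ) ^ 2 := by nlinarith [mul_nonneg hwr.le hvφ]
        calc ((Z : ℝ) ^ k * w) ^ 2 = ((Z : ℝ) ^ k) ^ 2 * w ^ 2 := by ring
          _ ≤ (d * φ) ^ 2 * w ^ 2 := by rw [← e]; gcongr
          _ = d ^ 2 * (w * φ) ^ 2 := by ring
          _ ≤ d ^ 2 * ((v : ℝ) + w * φ) ^ 2 := by gcongr
          _ = _ := by ring
      calc _ ≤ |(v : ℝ) - w * φ| * |(d : ℝ) * (v + w * φ)| := by gcongr
        _ = |(c : ℝ)| := by rw [← abs_mul, a1]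
        _ ≤ 4 := hcr
    have h0 : (w : ℤ) * p + v * q = 0 := by
      by_contra h0
      have a1 : (1 : ℝ) ≤ |(w : ℝ) * p + v * q| := by exact_mod_cast Int.one_le_abs h0
      have a2 : (w : ℝ) * p + v * q = w * (p + φ * q) + (v - w * φ) * q := by ring
      have a3 : |((v : ℝ) - w * φ) * q| ≤ 1 / 2 := by
        rw [abs_mul]
        have := mul_le_mul_of_nonneg_left hQr (abs_nonneg ((v : ℝ) - w * φ))
        nlinarith [mul_nonneg (abs_nonneg ((v : ℝ) - w * φ)) (abs_nonneg (q : ℝ))]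
      have a4 : |(w : ℝ) * (p + φ * q)| < 1 / 2 := by
        rw [abs_mul, abs_of_pos hwr]
        have b1 : w * (|(p : ℝ) + φ * q| * (Z : ℝ) ^ (s + 3)) < (Z : ℝ) ^ (s + 1) * 2 :=
          lt_of_le_of_lt (mul_le_mul_of_nonneg_left hφ2 hwr.le) (by linarith)
        have b2 : (Z : ℝ) ^ (s + 3) = (Z : ℝ) ^ (s + 1) * Z ^ 2 := by ring
        have b3 : w * |(p : ℝ) + φ * q| * Z ^ 2 < 2 := by
          rw [b2] at b1
          refine lt_of_mul_lt_mul_left (a := (Z : ℝ) ^ (s + 1)) (by linarith) (by positivity)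
        have b4 : (4 : ℝ) ≤ (Z : ℝ) ^ 2 := by nlinarith
        nlinarith [mul_nonneg hwr.le (abs_nonneg ((p : ℝ) + φ * q))]
      have := abs_add_le ((w : ℝ) * (p + φ * q)) ((v - w * φ) * q)
      rw [← a2] at this
      linarith
    have hww : (w : ℤ) * (-(d * v * p) - x * w * q) = c * q := by
      rw [← hv]; linear_combination (-(d : ℤ) * v) * h0
    refine ⟨-(d * v * p) - x * w * q, ?_, ?_⟩
    · simp only [eval_mul, eval_C, eval_sub, eval_pow, eval_X]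
      refine mul_left_cancel₀ (a := (w : ℤ) ^ 2) (by positivity) ?_
      rw [← mul_pow, hww]
      have e : (w : ℤ) * p = -(v * q) := eq_neg_of_add_eq_zero_left h0
      have e2 : ((w : ℤ) * p) ^ 2 = (v * q) ^ 2 := by rw [e]; ring
      linear_combination (-(c * d)) * e2 - c * q ^ 2 * hv
    · set u := -(d * v * p) - x * w * q
      have a1 : (w : ℝ) * |(u : ℝ)| ≤ 4 * |(q : ℝ)| := by
        have : (w : ℝ) * u = c * q := by exact_mod_cast hww
        rw [← abs_of_pos hwr, ← abs_mul, this, abs_mul]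
        gcongr
      have a2 : |(u : ℝ)| ≤ (Z : ℝ) ^ k := by
        refine le_of_mul_le_mul_left (a := (w : ℝ)) ?_ hwr
        nlinarith [abs_nonneg (q : ℝ)]
      exact_mod_cast a2

/-- All solutions up to `Z ^ (A k)` in a short interval. -/
theorem interval (d : ℕ) (c : ℤ) (A k Z x₀ : ℕ) (hd : 0 < d) (hc : |c| ≤ 4)
    (hcd : ¬ IsSquare (c * d)) (hk : k = 102 * (4 * A + 6) ^ 2) (hZ : 6 * k ≤ Z)
    (h1 : Z ^ k ≤ x₀) (h2 : x₀ ≤ Z ^ (2 * k + 2)) (h3 : Z ^ (2 * k) ≤ d * x₀) (S : Finset ℕ)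
    (hS : ∀ x ∈ S, x₀ ≤ x ∧ x ≤ x₀ + Z ^ 17)
    (hw : ∀ x ∈ S, ∃ (v : ℤ) (w : ℕ), d * v ^ 2 - x * (w : ℤ) ^ 2 = c ∧ 0 < w ∧
      w < Z ^ (A * k)) : S.card ≤ 21 * k * Z ^ 16 * (A * k) := by
  choose! v w hv hw0 hw1 using hw
  have hZ1 : 1 < Z := by
    have : 0 < (4 * A + 6) ^ 2 := by positivity
    omega
  have := card_le_mul_card_image_of_maps_to (f := fun x => Nat.log Z (w x)) (s := S)
    (t := range (A * k)) (fun x hx => mem_range.2
      (Nat.log_lt_of_lt_pow (hw0 x hx).ne' (hw1 x hx))) (21 * k * Z ^ 16) ?_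
  · simpa using this
  · intro s hs
    refine interval_size d c A k Z x₀ s hd hc hcd hk hZ (mem_range.1 hs) h1 h2 h3 _
      (fun x hx => hS x (mem_filter.1 hx).1) fun x hx => ?_
    obtain ⟨hx, e⟩ := mem_filter.1 hx
    refine ⟨v x, w x, hv x hx, ?_, ?_⟩
    · rw [← e]; exact Nat.pow_log_le_self Z (hw0 x hx).ne'
    · rw [← e]; exact Nat.lt_pow_succ_log_self hZ1 _

end Pool.Agent.MP_070445_nt
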