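import Pool.Agent.MP_070445_nt.Defs
import Pool.Agent.MP_070445_nt.Count

/-!
The counting bound with real exponents, and the statement for almost all discriminants.
-/

set_option autoImplicit false
open Finset Filter
open scoped Classical

namespace Pool.Agent.MP_070445_nt

theorem UnitLe.mono {D : ℕ} {B B' : ℝ} (h : UnitLe D B) (hB : B ≤ B') : UnitLe D B' := by
  obtain ⟨t, u, h1, h2, h3, h4⟩ := h
  exact ⟨t, u, h1, h2, h3, h4.trans hB⟩

theorem UnitLe.small {D T : ℕ} {B : ℝ} (h : UnitLe D B) (hB : 1 ≤ B) (hT : 8 * B ^ 2 < T) :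
    Small T D := by
  obtain ⟨t, u, h1, h2, h3, h4⟩ := h
  have h5 : (t : ℝ) ≤ 2 * B := by
    have : 0 ≤ (u : ℝ) * Real.sqrt D := by positivity
    linarith
  have h6 : t ^ 2 + 4 < T := by
    have : (t : ℝ) ^ 2 + 4 < T := by nlinarith [Nat.cast_nonneg (α := ℝ) t]
    exact_mod_cast this
  rcases h3 with h3 | h3
  · exact ⟨t, u, h2, by zify; linear_combination h3, by nlinarith⟩
  · exact ⟨t ^ 2 + 2, t * u, by positivity, by zify; linear_combination (t : ℤ) ^ 2 * h3, by omega⟩

theorem succ_pow_mul_le (K n m : ℕ) (h : m + n = K) : (K + 1) ^ n * m ≤ K ^ (n + 1) := by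
  induction n generalizing m with
  | zero => simp; omega
  | succ n ih =>
    have := ih (m + 1) (by omega)
    calc (K + 1) ^ (n + 1) * m = (K + 1) ^ n * ((K + 1) * m) := by ring
      _ ≤ (K + 1) ^ n * ((m + 1) * K) := Nat.mul_le_mul_left _ (by nlinarith)
      _ = (K + 1) ^ n * (m + 1) * K := by ring
      _ ≤ K ^ (n + 1) * K := Nat.mul_le_mul_right _ this
      _ = _ := by ring

theorem ncard_eq (N : ℕ) (p : ℕ → Prop) [DecidablePred p] :
    Set.ncard {D : ℕ | 1 ≤ D ∧ D ≤ N ∧ p D} = ((Icc 1 N).filter p).card := by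
  rw [← Set.ncard_coe_finset]
  congr 1
  ext D
  simp [and_assoc]

theorem count_bound (N : ℕ) (α : ℝ) (hN : 3 ≤ N) (hα : 1 ≤ α) :
    (((Icc 1 N).filter fun D => UnitLe D ((N : ℝ) ^ α)).card : ℝ) ≤
      1520 * (N : ℝ) ^ (1 - 1 / 250000 / α ^ 2) * Real.log N ^ 4 := by
  obtain ⟨A, hA⟩ : ∃ A, A = ⌈3 * α⌉₊ := ⟨_, rfl⟩
  obtain ⟨k, hk⟩ : ∃ k, k = 102 * (4 * A + 6) ^ 2 := ⟨_, rfl⟩
  have hA1 : 3 * α ≤ A := hA ▸ Nat.le_ceil _
  have hA2 : (A : ℝ) ≤ 4 * α := by
    have := Nat.ceil_lt_add_one (by linarith : 0 ≤ 3 * α)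
    rw [← hA] at this
    linarith
  have hk0 : 102 ≤ k := by
    have : 0 < (4 * A + 6) ^ 2 := by positivity
    omega
  have hkr : (102 : ℝ) ≤ k := by exact_mod_cast hk0
  have hkα : ((4 * k + 2 : ℕ) : ℝ) ≤ 250000 * α ^ 2 := by
    have h1 : (k : ℝ) = 102 * (4 * A + 6) ^ 2 := by exact_mod_cast hk
    have h2 : (4 * (A : ℝ) + 6) ^ 2 ≤ (22 * α) ^ 2 :=
      pow_le_pow_left₀ (by positivity) (by linarith) 2
    push_cast
    nlinarith
  have hNr : (3 : ℝ) ≤ N := by exact_mod_cast hN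
  have hN0 : (0 : ℝ) < N := by linarith
  have hL : 1 ≤ Real.log N := by
    rw [Real.le_log_iff_exp_le hN0]
    exact Real.exp_one_lt_d9.le.trans (by linarith)
  set E : ℝ := (N : ℝ) ^ (1 / 250000 / α ^ 2) with hE
  have hE0 : 0 < E := by positivity
  have hEeq : (N : ℝ) ^ (1 - 1 / 250000 / α ^ 2) = N / E := by
    rw [Real.rpow_sub hN0, Real.rpow_one]
  have hEn : E ^ (4 * k + 2) ≤ N := by
    rw [hE, ← Real.rpow_natCast, ← Real.rpow_mul hN0.le]
    refine (Real.rpow_le_rpow_of_exponent_le (by linarith) ?_).trans (Real.rpow_one _).le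
    rw [div_div, div_mul_eq_mul_div, one_mul, div_le_one (by positivity)]
    exact hkα
  have hex : ∃ K, N < (K + 1) ^ (4 * k + 2) :=
    ⟨N, lt_of_lt_of_le (Nat.lt_succ_self N) (Nat.le_self_pow (by omega) _)⟩
  set K := Nat.find hex with hK
  have hK1 : N < (K + 1) ^ (4 * k + 2) := Nat.find_spec hex
  have hK2 : K ^ (4 * k + 2) ≤ N := by
    rcases Nat.eq_zero_or_pos K with h | h
    · rw [h, zero_pow (by omega)]; omega
    · have := Nat.find_min hex (m := K - 1) (by omega)
      rwa [Nat.sub_add_cancel h, not_lt] at this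
  have hEK : E < K + 1 := by
    refine lt_of_pow_lt_pow_left₀ (4 * k + 2) (by positivity) (hEn.trans_lt ?_)
    exact_mod_cast hK1
  have hL4 : Real.log N ≤ Real.log N ^ 4 := le_self_pow₀ hL (by norm_num)
  rw [hEeq]
  by_cases hKk : 6 * k ≤ K
  · have hK3 : N ≤ K ^ (4 * k + 3) := by
      have := succ_pow_mul_le K (4 * k + 2) (K - (4 * k + 2)) (by omega)
      refine hK1.le.trans (le_trans (Nat.le_mul_of_pos_right _ (by omega)) this)
    have hKr : (612 : ℝ) ≤ K := by exact_mod_cast (by omega : 612 ≤ K)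
    have hK1r : (1 : ℝ) ≤ K := by linarith
    have h1 := card_small A k K N (by
      have : (1 : ℝ) ≤ A := by linarith
      exact_mod_cast this) hk hKk hK2 (hK3.trans (Nat.pow_le_pow_right (by omega) (by omega)))
    have h2 : ((Icc 1 N).filter fun D => UnitLe D ((N : ℝ) ^ α)) ⊆
        (Icc 1 N).filter (Small (K ^ (4 * (A * k)))) := by
      refine monotone_filter_right _ fun D _ h => h.small
        (Real.one_le_rpow (by linarith) (by linarith)) ?_
      have a1 : (N : ℝ) ≤ (K : ℝ) ^ ((4 * k + 3 : ℕ) : ℝ) := by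
        rw [Real.rpow_natCast]; exact_mod_cast hK3
      have a2 : (N : ℝ) ^ α ≤ (K : ℝ) ^ (((4 * k + 3 : ℕ) : ℝ) * α) := by
        rw [Real.rpow_mul (by positivity)]
        gcongr
      calc 8 * ((N : ℝ) ^ α) ^ 2 < K * ((N : ℝ) ^ α) ^ 2 := by gcongr; linarith
        _ ≤ K * ((K : ℝ) ^ (((4 * k + 3 : ℕ) : ℝ) * α)) ^ 2 := by gcongr
        _ = (K : ℝ) ^ (1 + ((4 * k + 3 : ℕ) : ℝ) * α * 2) := by
          rw [Real.rpow_add (by linarith), Real.rpow_one,
            Real.rpow_mul (by positivity) _ 2, Real.rpow_two]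
        _ ≤ (K : ℝ) ^ ((4 * (A * k) : ℕ) : ℝ) := by
          refine Real.rpow_le_rpow_of_exponent_le hK1r ?_
          push_cast
          nlinarith
        _ = _ := by rw [Real.rpow_natCast]; push_cast; rfl
    have h3 : (k : ℝ) ≤ Real.log N := by
      rw [Real.le_log_iff_exp_le hN0]
      calc Real.exp k = Real.exp 1 ^ k := by rw [← Real.exp_nat_mul, mul_one]
        _ ≤ (K : ℝ) ^ k := by gcongr; exact Real.exp_one_lt_d9.le.trans (by linarith)
        _ ≤ (K : ℝ) ^ (4 * k + 2) := pow_le_pow_right₀ hK1r (by omega)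
        _ ≤ N := by exact_mod_cast hK2
    calc _ ≤ (((Icc 1 N).filter (Small (K ^ (4 * (A * k))))).card : ℝ) := by
          exact_mod_cast card_le_card h2
      _ ≤ 380 * k ^ 3 * (1 + Real.log N) * N / K := h1
      _ ≤ 380 * Real.log N ^ 3 * (Real.log N + Real.log N) * N / (E / 2) := by
          gcongr; linarith
      _ = _ := by field_simp; ring
  · have h1 : E ≤ 6 * Real.log N := by
      rcases le_total (k : ℝ) (Real.log N) with h | h
      · have : (K : ℝ) + 1 ≤ 6 * k := by exact_mod_cast (by omega : K + 1 ≤ 6 * k)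
        linarith
      · have a1 : E ^ (4 * k + 2) ≤ 3 ^ (4 * k + 2) := by
          calc E ^ (4 * k + 2) ≤ N := hEn
            _ = Real.exp (Real.log N) := (Real.exp_log hN0).symm
            _ ≤ Real.exp k := Real.exp_le_exp.2 h
            _ = Real.exp 1 ^ k := by rw [← Real.exp_nat_mul, mul_one]
            _ ≤ 3 ^ k := by gcongr; exact Real.exp_one_lt_d9.le.trans (by norm_num)
            _ ≤ _ := pow_le_pow_right₀ (by norm_num) (by omega)
        have := (pow_le_pow_iff_left₀ hE0.le (by norm_num) (by omega)).1 a1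
        linarith
    calc _ ≤ ((Icc 1 N).card : ℝ) := by exact_mod_cast card_filter_le _ _
      _ = N / E * E := by simp; field_simp
      _ ≤ N / E * (1520 * Real.log N ^ 4) := by gcongr; linarith
      _ = _ := by ring

theorem card_fund (N : ℕ) : (N : ℝ) / 16 - 1 ≤ (((Icc 1 N).filter IsFund).card : ℝ) := by
  set M := N / 4 with hM
  have h1 : ((Icc 1 M).filter Squarefree).card ≤ ((Icc 1 N).filter IsFund).card := by
    refine card_le_card_of_injOn (fun n => if n % 4 = 1 then n else 4 * n) ?_ ?_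
    · intro n hn
      obtain ⟨hn, hsq⟩ := mem_filter.1 (mem_coe.1 hn)
      rw [mem_Icc] at hn
      simp only [coe_filter, mem_Icc, Set.mem_ofPred_eq, IsFund]
      split_ifs with h
      · exact ⟨by omega, Or.inl ⟨h, hsq⟩⟩
      · have : ¬ 2 * 2 ∣ n := fun h => by simpa using hsq 2 h
        refine ⟨by omega, Or.inr ⟨by omega, by omega, ?_⟩⟩
        rwa [Nat.mul_div_cancel_left _ (by norm_num)]
    · intro a _ b _ h
      dsimp only at h
      split_ifs at h <;> omega
  have h2 : Icc 1 M ⊆ ((Icc 1 M).filter Squarefree ∪ (Ioc 0 M).filter fun D => 4 ∣ D) ∪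
      (Icc 1 M).filter fun D => ∃ f, 2 < f ∧ f ^ 2 ∣ D := by
    intro n hn
    simp only [mem_union, mem_filter]
    by_cases h : Squarefree n
    · exact Or.inl (Or.inl ⟨hn, h⟩)
    · simp only [Squarefree, not_forall, Nat.isUnit_iff] at h
      obtain ⟨f, hf, hf1⟩ := h
      have hn' := mem_Icc.1 hn
      have hf0 : f ≠ 0 := by rintro rfl; simp at hf; omega
      rcases (by omega : f = 2 ∨ 2 < f) with rfl | h2
      · exact Or.inl (Or.inr ⟨mem_Ioc.2 hn', hf⟩)
      · exact Or.inr ⟨hn, f, h2, by rwa [sq]⟩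
  have h3 := (card_le_card h2).trans ((card_union_le _ _).trans
    (Nat.add_le_add_right (card_union_le _ _) _))
  rw [Nat.Ioc_filter_dvd_card_eq_div, Nat.card_Icc, Nat.add_sub_cancel] at h3
  have h4 := card_sq_dvd 2 M (by norm_num)
  have h5 : ((M / 4 : ℕ) : ℝ) ≤ M / 4 := Nat.cast_div_le
  have h6 : (N : ℝ) ≤ 4 * M + 4 := by exact_mod_cast (by omega : N ≤ 4 * M + 4)
  have h3' := (Nat.cast_le (α := ℝ)).2 h3
  have h1' := (Nat.cast_le (α := ℝ)).2 h1
  push_cast at h3' h4
  linarith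

theorem almost_all :
    Tendsto (fun N : ℕ =>
      (((Icc 1 N).filter fun D => IsFund D ∧ UnitLe D (Real.exp (1 / 5000 *
        Real.log D ^ (3 / 2 : ℝ) / Real.sqrt (Real.log (Real.log D))))).card : ℝ) /
      (((Icc 1 N).filter IsFund).card : ℝ)) atTop (nhds 0) := by
  have hlog : Tendsto (fun N : ℕ => Real.log N) atTop atTop :=
    Real.tendsto_log_atTop.comp tendsto_natCast_atTop_atTop
  have hll : Tendsto (fun N : ℕ => Real.log (Real.log N)) atTop atTop :=
    Real.tendsto_log_atTop.comp hlog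
  have hlim : Tendsto (fun N : ℕ => 32 * ((Real.sqrt N)⁻¹ + 1520 * (Real.log N)⁻¹)) atTop
      (nhds 0) := by
    have a1 := (Real.tendsto_sqrt_atTop.comp tendsto_natCast_atTop_atTop).inv_tendsto_atTop
    have := ((a1.add (hlog.inv_tendsto_atTop.const_mul 1520)).const_mul 32)
    simpa using this
  have hsm : ∀ᶠ N : ℕ in atTop, Real.log (Real.log N) ≤ 1 / 6250000 * Real.log N := by
    have := hlog.eventually (Real.isLittleO_log_id_atTop.bound (c := 1 / 6250000) (by norm_num))
    filter_upwards [this, hlog.eventually_ge_atTop 0] with N h h0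
    rw [id, Real.norm_of_nonneg h0] at h
    exact (le_abs_self _).trans h
  refine squeeze_zero' (Eventually.of_forall fun N => by positivity) ?_ hlim
  filter_upwards [hsm, hll.eventually_ge_atTop 2, hlog.eventually_ge_atTop 1,
    eventually_ge_atTop 32] with N h1 h2 h3 h4
  set L := Real.log N with hL
  set l := Real.log L with hl
  have hNr : (32 : ℝ) ≤ N := by exact_mod_cast h4
  have hN0 : (0 : ℝ) < N := by linarith
  have hL0 : 0 < L := by linarith
  have hl0 : 0 < l := by linarith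
  set α := 1 / 2500 * Real.sqrt (L / l) with hα
  have hα2 : α ^ 2 = 1 / 6250000 * (L / l) := by
    rw [hα, mul_pow, Real.sq_sqrt (by positivity)]; norm_num
  have hα1 : 1 ≤ α := by
    refine (one_le_sq_iff₀ (by positivity)).1 ?_
    rw [hα2, ← mul_div_assoc, le_div_iff₀ hl0]
    linarith
  have hsub : ((Icc 1 N).filter fun D => IsFund D ∧ UnitLe D (Real.exp (1 / 5000 *
        Real.log D ^ (3 / 2 : ℝ) / Real.sqrt (Real.log (Real.log D))))) ⊆
      Icc 1 (Nat.sqrt N) ∪ (Icc 1 N).filter fun D => UnitLe D ((N : ℝ) ^ α) := by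
    intro D hD
    obtain ⟨hD, -, hU⟩ := mem_filter.1 hD
    rw [mem_union]
    rcases le_or_gt D (Nat.sqrt N) with h | h
    · exact Or.inl (mem_Icc.2 ⟨(mem_Icc.1 hD).1, h⟩)
    refine Or.inr (mem_filter.2 ⟨hD, hU.mono ?_⟩)
    have hD0 : (0 : ℝ) < D := by exact_mod_cast (mem_Icc.1 hD).1
    have a1 : Real.log D ≤ L := Real.log_le_log hD0 (by exact_mod_cast (mem_Icc.1 hD).2)
    have a2 : L / 2 ≤ Real.log D := by
      have : (N : ℝ) ≤ (D : ℝ) ^ 2 := by exact_mod_cast (Nat.sqrt_lt'.1 h).le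
      have := Real.log_le_log hN0 this
      rw [Real.log_pow] at this
      push_cast at this
      linarith
    have a3 : l / 4 ≤ Real.log (Real.log D) := by
      have := Real.log_le_log (by positivity) a2
      rw [Real.log_div hL0.ne' two_ne_zero] at this
      have := Real.log_two_lt_d9
      linarith
    have a4 : Real.sqrt l / 2 ≤ Real.sqrt (Real.log (Real.log D)) := by
      refine Real.le_sqrt_of_sq_le ?_
      rw [div_pow, Real.sq_sqrt hl0.le]
      linarith
    have a5 : Real.log D ^ (3 / 2 : ℝ) ≤ L * Real.sqrt L := by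
      refine (Real.rpow_le_rpow (by linarith) a1 (by norm_num)).trans (le_of_eq ?_)
      rw [Real.sqrt_eq_rpow, ← Real.rpow_one_add' hL0.le (by norm_num)]
      norm_num
    rw [Real.rpow_def_of_pos hN0, Real.exp_le_exp]
    calc _ ≤ 1 / 5000 * (L * Real.sqrt L) / (Real.sqrt l / 2) := by gcongr
      _ = _ := by rw [hα, Real.sqrt_div hL0.le]; field_simp; ring
  have hc := count_bound N α (by omega) hα1
  have hpow : (N : ℝ) ^ (1 - 1 / 250000 / α ^ 2) * L ^ 4 ≤ N * L⁻¹ := by
    rw [Real.rpow_sub hN0, Real.rpow_one, Real.rpow_def_of_pos hN0, hα2]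
    have e : L * (1 / 250000 / (1 / 6250000 * (L / l))) = (25 : ℕ) * l := by
      field_simp; norm_num
    rw [← hL, e, Real.exp_nat_mul, hl, Real.exp_log hL0, div_mul_eq_mul_div,
      div_le_iff₀ (by positivity), mul_assoc]
    gcongr
    rw [← div_eq_inv_mul, le_div_iff₀ hL0, ← pow_succ]
    exact pow_le_pow_right₀ h3 (by norm_num)
  have hnum : (((Icc 1 N).filter fun D => IsFund D ∧ UnitLe D (Real.exp (1 / 5000 *
        Real.log D ^ (3 / 2 : ℝ) / Real.sqrt (Real.log (Real.log D))))).card : ℝ) ≤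
      N * ((Real.sqrt N)⁻¹ + 1520 * L⁻¹) := by
    have a1 := (Nat.cast_le (α := ℝ)).2 ((card_le_card hsub).trans (card_union_le _ _))
    rw [Nat.card_Icc, Nat.add_sub_cancel, Nat.cast_add] at a1
    have a2 : (Nat.sqrt N : ℝ) ≤ N * (Real.sqrt N)⁻¹ := by
      rw [← div_eq_mul_inv, Real.div_sqrt]
      exact Real.nat_sqrt_le_real_sqrt
    linarith
  have hden := card_fund N
  rw [div_le_iff₀ (by linarith)]
  refine hnum.trans ?_
  have : 0 ≤ (Real.sqrt N)⁻¹ + 1520 * L⁻¹ := by positivity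
  nlinarith

end Pool.Agent.MP_070445_nt
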