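import Mathlib

/-!
Integer polynomials `P, Q` with `P + φ Q` small on a short interval, `φ` a square root of a
polynomial without roots near the interval.
-/

set_option autoImplicit false
open Polynomial Finset

namespace Pool.Agent.MP_070445_nt

/-- Simultaneous Dirichlet approximation with separate precisions. -/
theorem dirichlet {ι κ : Type} [Fintype ι] [Fintype κ] [DecidableEq ι] [DecidableEq κ]
    (β : κ → ι → ℝ) (M : κ → ℕ) (hM : ∀ j, 0 < M j) (N : ℕ)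
    (h : ∏ j, M j < (N + 1) ^ Fintype.card ι) :
    ∃ q : ι → ℤ, q ≠ 0 ∧ (∀ i, |q i| ≤ N) ∧
      ∀ j, ∃ p : ℤ, |(p : ℝ) + ∑ i, β j i * q i| * M j ≤ 1 := by
  let S : Finset (ι → ℕ) := Fintype.piFinset fun _ => range (N + 1)
  let T : Finset (κ → ℕ) := Fintype.piFinset fun j => range (M j)
  let L : (ι → ℕ) → κ → ℝ := fun q j => ∑ i, β j i * q i
  let f : (ι → ℕ) → κ → ℕ := fun q j => ⌊Int.fract (L q j) * M j⌋₊
  have hcard : T.card < S.card := by
    simpa [S, T, Fintype.card_piFinset] using h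
  have hmaps : ∀ q ∈ S, f q ∈ T := by
    intro q _
    simp only [T, Fintype.mem_piFinset, mem_range, f]
    intro j
    have h0 := Int.fract_nonneg (L q j)
    have h1 := Int.fract_lt_one (L q j)
    have hj : (0 : ℝ) < M j := by exact_mod_cast hM j
    rw [Nat.floor_lt (by positivity)]
    nlinarith
  obtain ⟨x, hx, y, hy, hxy, hf⟩ := exists_ne_map_eq_of_card_lt_of_maps_to hcard hmaps
  simp only [S, Fintype.mem_piFinset, mem_range] at hx hy
  refine ⟨fun i => (x i : ℤ) - y i, ?_, ?_, ?_⟩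
  · intro h0
    apply hxy
    funext i
    have := congrFun h0 i
    simp only [Pi.zero_apply] at this
    omega
  · intro i
    have := hx i
    have := hy i
    dsimp only
    rw [abs_le]
    constructor <;> omega
  · intro j
    refine ⟨⌊L y j⌋ - ⌊L x j⌋, ?_⟩
    have hj : (0 : ℝ) < M j := by exact_mod_cast hM j
    have e : ((⌊L y j⌋ - ⌊L x j⌋ : ℤ) : ℝ) + ∑ i, β j i * (((x i : ℤ) - y i : ℤ) : ℝ) =
        Int.fract (L x j) - Int.fract (L y j) := by
      have : ∑ i, β j i * (((x i : ℤ) - y i : ℤ) : ℝ) = L x j - L y j := by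
        simp only [L, ← sum_sub_distrib]
        refine sum_congr rfl fun i _ => ?_
        push_cast
        ring
      rw [this, Int.fract, Int.fract]
      push_cast
      ring
    rw [e]
    have hfj : ⌊Int.fract (L x j) * M j⌋₊ = ⌊Int.fract (L y j) * M j⌋₊ := congrFun hf j
    have a0 : 0 ≤ Int.fract (L x j) * M j := mul_nonneg (Int.fract_nonneg _) hj.le
    have b0 : 0 ≤ Int.fract (L y j) * M j := mul_nonneg (Int.fract_nonneg _) hj.le
    have a1 := Nat.floor_le a0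
    have a2 := Nat.lt_floor_add_one (Int.fract (L x j) * M j)
    have b1 := Nat.floor_le b0
    have b2 := Nat.lt_floor_add_one (Int.fract (L y j) * M j)
    rw [hfj] at a1 a2
    rw [← abs_of_pos hj, ← abs_mul, abs_le]
    constructor <;> nlinarith

theorem abs_eval_le (R : ℝ[X]) (n : ℕ) (hn : R.natDegree < n) (b Y σ : ℝ) (hb : ∀ j, |R.coeff j| ≤ b)
    (hY : 1 ≤ Y) (hσ : |σ| ≤ Y) : |R.eval σ| ≤ n * b * Y ^ (n - 1) := by
  rw [eval_eq_sum_range' hn]
  have hb0 : 0 ≤ b := (abs_nonneg _).trans (hb 0)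
  calc |∑ i ∈ range n, R.coeff i * σ ^ i| ≤ ∑ i ∈ range n, |R.coeff i * σ ^ i| :=
        abs_sum_le_sum_abs _ _
    _ ≤ ∑ _i ∈ range n, b * Y ^ (n - 1) := by
        refine sum_le_sum fun i hi => ?_
        rw [abs_mul, abs_pow]
        refine mul_le_mul (hb i) ?_ (by positivity) hb0
        refine (pow_le_pow_left₀ (abs_nonneg _) hσ i).trans (pow_le_pow_right₀ hY ?_)
        have := mem_range.1 hi
        omega
    _ = n * b * Y ^ (n - 1) := by simp [mul_assoc]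

/-- Padé type approximation of a real polynomial by a quotient of integer polynomials. -/
theorem padePoly (T : ℝ[X]) (a J N M B : ℕ) (hT : T.natDegree ≤ J) (hB : ∀ j, |T.coeff j| ≤ B)
    (hM : 0 < M) (h : M ^ (a + 1) * (M * (2 * (a + 1) * N * B + 2)) ^ J < (N + 1) ^ (a + 1)) :
    ∃ P Q : ℤ[X], P.natDegree ≤ a ∧ Q.natDegree ≤ a ∧ Q ≠ 0 ∧ (∀ j, |Q.coeff j| ≤ N) ∧
      ∀ j, |(P.map (Int.castRingHom ℝ) + T * Q.map (Int.castRingHom ℝ)).coeff j| * M ≤ 1 := by
  set K : ℕ := 2 * (a + 1) * N * B + 2 with hK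
  have hK0 : (0 : ℝ) < K := by positivity
  let β : Fin (a + 1) ⊕ Fin J → Fin (a + 1) → ℝ := fun j i =>
    Sum.elim (fun j : Fin (a + 1) => (T * X ^ (i : ℕ)).coeff j)
      (fun j : Fin J => (T * X ^ (i : ℕ)).coeff (a + 1 + j) / K) j
  let M' : Fin (a + 1) ⊕ Fin J → ℕ := Sum.elim (fun _ => M) (fun _ => M * K)
  obtain ⟨q, hq0, hqN, hq⟩ := dirichlet β M' (by rintro (j | j) <;> simp [M', hM, hK]) N
    (by simpa [M', Fintype.prod_sum_type] using h)
  choose p hp using hq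
  let Q : ℤ[X] := ∑ i : Fin (a + 1), C (q i) * X ^ (i : ℕ)
  let P : ℤ[X] := ∑ i : Fin (a + 1), C (p (Sum.inl i)) * X ^ (i : ℕ)
  have hco : ∀ (u : Fin (a + 1) → ℤ) (j : ℕ),
      (∑ i : Fin (a + 1), C (u i) * X ^ (i : ℕ)).coeff j =
        if h : j < a + 1 then u ⟨j, h⟩ else 0 := by
    intro u j
    rw [finsetSum_coeff]
    split_ifs with hj
    · rw [sum_eq_single ⟨j, hj⟩]
      · simp
      · intro i _ hi
        rw [coeff_C_mul_X_pow, if_neg]
        intro e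
        exact hi (Fin.ext e.symm)
      · simp
    · refine sum_eq_zero fun i _ => ?_
      rw [coeff_C_mul_X_pow, if_neg]
      have := i.2
      omega
  have hdeg : ∀ (u : Fin (a + 1) → ℤ),
      (∑ i : Fin (a + 1), C (u i) * X ^ (i : ℕ)).natDegree ≤ a := by
    intro u
    rw [natDegree_le_iff_coeff_eq_zero]
    intro j hj
    rw [hco, dif_neg (by omega)]
  have hTQ : ∀ j, (T * Q.map (Int.castRingHom ℝ)).coeff j =
      ∑ i : Fin (a + 1), (T * (X : ℝ[X]) ^ (i : ℕ)).coeff j * (q i : ℝ) := by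
    intro j
    simp only [Q, Polynomial.map_sum, mul_sum, finsetSum_coeff]
    refine sum_congr rfl fun i _ => ?_
    rw [Polynomial.map_mul, map_C, Polynomial.map_pow, map_X, mul_left_comm, coeff_C_mul]
    simp [mul_comm]
  have hc : ∀ (i j : ℕ), |(T * (X : ℝ[X]) ^ i).coeff j| ≤ (B : ℝ) := by
    intro i j
    rw [coeff_mul_X_pow']
    split_ifs
    · exact hB _
    · simp
  refine ⟨P, Q, hdeg _, hdeg _, ?_, ?_, ?_⟩
  · intro h0
    apply hq0
    funext i
    have := hco q i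
    rw [dif_pos i.2] at this
    change Q.coeff i = _ at this
    rw [h0] at this
    simpa using this.symm
  · intro j
    change |(∑ i : Fin (a + 1), C (q i) * X ^ (i : ℕ)).coeff j| ≤ _
    rw [hco]
    split_ifs
    · exact hqN _
    · simp
  · intro j
    rw [coeff_add, coeff_map, hTQ]
    change |(Int.castRingHom ℝ)
      ((∑ i : Fin (a + 1), C (p (Sum.inl i)) * X ^ (i : ℕ)).coeff j) + _| * _ ≤ _
    rw [hco]
    split_ifs with hj
    · simpa [β, M'] using hp (Sum.inl ⟨j, hj⟩)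
    · by_cases hj2 : j < a + 1 + J
      · obtain ⟨l, rfl⟩ : ∃ l, j = a + 1 + l := ⟨j - (a + 1), by omega⟩
        have hl : l < J := by omega
        have h1 := hp (Sum.inr ⟨l, hl⟩)
        simp only [β, M', Sum.elim_inr] at h1
        set s := ∑ i : Fin (a + 1), (T * (X : ℝ[X]) ^ (i : ℕ)).coeff (a + 1 + l) * (q i : ℝ) with hs
        have e : ∑ i : Fin (a + 1), (T * (X : ℝ[X]) ^ (i : ℕ)).coeff (a + 1 + l) / K * (q i : ℝ) = s / K := by
          rw [hs, sum_div]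
          exact sum_congr rfl fun i _ => by ring
        rw [e] at h1
        have hsb : |s| ≤ (a + 1) * N * B := by
          calc |s| ≤ ∑ i : Fin (a + 1), |(T * (X : ℝ[X]) ^ (i : ℕ)).coeff (a + 1 + l) * (q i : ℝ)| :=
                abs_sum_le_sum_abs _ _
            _ ≤ ∑ _i : Fin (a + 1), (B : ℝ) * N := by
                refine sum_le_sum fun i _ => ?_
                rw [abs_mul]
                refine mul_le_mul (hc _ _) ?_ (abs_nonneg _) (by positivity)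
                exact_mod_cast hqN i
            _ = (a + 1) * N * B := by simp; ring
        have hKr : (K : ℝ) = 2 * ((a + 1) * N * B) + 2 := by rw [hK]; push_cast; ring
        have hM1 : (1 : ℝ) ≤ M := by exact_mod_cast hM
        set z := p (Sum.inr ⟨l, hl⟩)
        have h2 : |z * K + s| * M ≤ 1 := by
          have : (z : ℝ) * K + s = (z + s / K) * K := by field_simp
          rw [this, abs_mul, abs_of_pos hK0]
          push_cast at h1
          linarith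
        have h3 : |z * K + s| ≤ 1 := by nlinarith [abs_nonneg (z * K + s)]
        have hz : z = 0 := by
          by_contra hz
          have h4 : (1 : ℝ) ≤ |(z : ℝ)| := by exact_mod_cast Int.one_le_abs hz
          have h5 : |(z : ℝ) * K| ≤ |z * K + s| + |s| := by
            simpa using abs_sub (z * K + s) s
          rw [abs_mul, abs_of_pos hK0] at h5
          nlinarith [abs_nonneg s]
        simpa [hz] using h2
      · have : ∑ i : Fin (a + 1), (T * (X : ℝ[X]) ^ (i : ℕ)).coeff j * (q i : ℝ) = 0 := by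
          refine sum_eq_zero fun i _ => ?_
          rw [coeff_mul_X_pow']
          have := i.2
          rw [if_pos (by omega), coeff_eq_zero_of_natDegree_lt (by omega), zero_mul]
        simp [this]

/-- A holomorphic square root of a polynomial on a disc without roots. -/
theorem exists_sqrt (G : ℂ[X]) (R : ℝ) (hR : 0 < R) (hG : ∀ z : ℂ, ‖z‖ ≤ R → G.eval z ≠ 0) :
    ∃ s : ℂ → ℂ, (∀ z, ‖z‖ ≤ R → DifferentiableAt ℂ s z) ∧ (∀ z, ‖z‖ ≤ R → s z ^ 2 = G.eval z) ∧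
      ∀ z, ‖z‖ ≤ R → ‖G.eval z‖ ≤ ‖G.eval 0‖ * 2 ^ G.natDegree := by
  induction hn : G.natDegree generalizing G with
  | zero =>
    rw [eq_C_of_natDegree_eq_zero hn]
    exact ⟨fun _ => G.coeff 0 ^ ((2 : ℂ)⁻¹), fun _ _ => differentiableAt_const _,
      fun _ _ => by simp, fun _ _ => by simp⟩
  | succ n ih =>
    have hG0 : G ≠ 0 := by rintro rfl; simp at hn
    obtain ⟨b, hb⟩ := IsAlgClosed.exists_root G (by
      rw [degree_eq_natDegree hG0, hn]; exact_mod_cast Nat.succ_ne_zero n)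
    obtain ⟨H, rfl⟩ := dvd_iff_isRoot.2 hb
    have hH0 : H ≠ 0 := by rintro rfl; simp at hG0
    have hbR : R < ‖b‖ := by
      by_contra hle
      exact hG b (not_lt.1 hle) hb
    have hb0 : b ≠ 0 := by rintro rfl; simp at hbR; linarith
    have hbp : 0 < ‖b‖ := norm_pos_iff.2 hb0
    have hHn : H.natDegree = n := by
      rw [natDegree_mul (X_sub_C_ne_zero b) hH0, natDegree_X_sub_C] at hn
      omega
    obtain ⟨s, h1, h2, h3⟩ := ih H (fun z hz h0 => hG z hz (by simp [h0])) hHn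
    refine ⟨fun z => (-b) ^ ((2 : ℂ)⁻¹) * (1 - z / b) ^ ((2 : ℂ)⁻¹) * s z, ?_, ?_, ?_⟩
    · intro z hz
      refine DifferentiableAt.mul (DifferentiableAt.const_mul ?_ _) (h1 z hz)
      refine DifferentiableAt.cpow_const (by fun_prop) ?_
      left
      have : ‖z / b‖ < 1 := by rw [norm_div, div_lt_one hbp]; linarith
      have := (Complex.re_le_norm (z / b)).trans_lt this
      simp only [Complex.sub_re, Complex.one_re]
      linarith
    · intro z hz
      simp only [mul_pow, Complex.cpow_ofNat_inv_pow, h2 z hz, eval_mul, eval_sub, eval_X, eval_C]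
      field_simp
      ring
    · intro z hz
      simp only [eval_mul, eval_sub, eval_X, eval_C, norm_mul, zero_sub, norm_neg]
      have : ‖z - b‖ ≤ 2 * ‖b‖ := (norm_sub_le _ _).trans (by linarith)
      calc ‖z - b‖ * ‖H.eval z‖ ≤ (2 * ‖b‖) * (‖H.eval 0‖ * 2 ^ n) :=
            mul_le_mul this (h3 z hz) (norm_nonneg _) (by positivity)
        _ = _ := by ring

/-- Polynomial approximation of a square root of a polynomial. -/
theorem sqrtApprox (G : ℝ[X]) (R B : ℝ) (J : ℕ) (hR : 1 ≤ R) (hB0 : 0 ≤ B)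
    (hG : ∀ z : ℂ, ‖z‖ ≤ R → (G.map (algebraMap ℝ ℂ)).eval z ≠ 0)
    (hB : |G.eval 0| * 2 ^ G.natDegree ≤ B ^ 2) :
    ∃ T : ℝ[X], T.natDegree ≤ J ∧ (∀ j, |T.coeff j| ≤ B) ∧
      ∀ σ ρ : ℝ, |σ| ≤ ρ * R → ρ ≤ 1 / 2 → 0 ≤ G.eval σ →
        ∃ φ : ℝ, φ ^ 2 = G.eval σ ∧ |φ - T.eval σ| ≤ 2 * B * ρ ^ J := by
  have hR0 : 0 < R := by linarith
  obtain ⟨s, h1, h2, h3⟩ := exists_sqrt _ R hR0 hG
  have hev : ∀ x : ℝ, (G.map (algebraMap ℝ ℂ)).eval (x : ℂ) = ((G.eval x : ℝ) : ℂ) := fun x => by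
    rw [eval_map]
    exact eval₂_at_apply (algebraMap ℝ ℂ) x
  have hs : ∀ z, ‖z‖ ≤ R → ‖s z‖ ≤ B := by
    intro z hz
    have a := h3 z hz
    rw [← h2 z hz, norm_pow, natDegree_map_eq_of_injective (algebraMap ℝ ℂ).injective,
      ← Complex.ofReal_zero, hev, Complex.norm_real, Real.norm_eq_abs] at a
    exact (pow_le_pow_iff_left₀ (norm_nonneg _) hB0 two_ne_zero).1 (a.trans hB)
  have hd : DifferentiableOn ℂ s (Metric.closedBall 0 R) := fun z hz =>
    (h1 z (by simpa using hz)).differentiableWithinAt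
  let c : ℕ → ℂ := fun n => (n.factorial : ℂ)⁻¹ * iteratedDeriv n s 0
  have hc : ∀ n, ‖c n‖ ≤ B / R ^ n := by
    intro n
    have a := Complex.norm_iteratedDeriv_le_of_forall_mem_sphere_norm_le (c := 0) (C := B) n hR0
      (DifferentiableOn.diffContOnCl (by rwa [closure_ball _ hR0.ne']))
      (fun z hz => hs z (by simpa using (Metric.mem_sphere.1 hz).le))
    have f0 : (0 : ℝ) < n.factorial := by exact_mod_cast n.factorial_pos
    simp only [c, norm_mul, norm_inv, Complex.norm_natCast]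
    rw [inv_mul_le_iff₀ f0]
    simpa [mul_div_assoc] using a
  let T : ℝ[X] := ∑ i ∈ range J, C (c i).re * X ^ i
  have hT : ∀ j, T.coeff j = if j < J then (c j).re else 0 := by
    intro j
    simp only [T, finsetSum_coeff, coeff_C_mul_X_pow]
    simp
  refine ⟨T, ?_, ?_, ?_⟩
  · rw [natDegree_le_iff_coeff_eq_zero]
    intro j hj
    rw [hT, if_neg (by omega)]
  · intro j
    rw [hT]
    split_ifs
    · refine (Complex.abs_re_le_norm _).trans ((hc j).trans ?_)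
      exact div_le_self hB0 (one_le_pow₀ hR)
    · simpa using hB0
  · intro σ ρ hσ hρ hG0
    have hρ0 : 0 ≤ ρ := by
      by_contra h
      nlinarith [abs_nonneg σ]
    have hσR : ‖(σ : ℂ)‖ < R := by
      rw [Complex.norm_real, Real.norm_eq_abs]
      nlinarith
    have hsum := Complex.hasSum_taylorSeries_on_ball (hd.mono Metric.ball_subset_closedBall)
      (z := σ) (by simpa using hσR)
    have hsum' : HasSum (fun n => c n * (σ : ℂ) ^ n) (s σ) := by
      have e : (fun n => c n * (σ : ℂ) ^ n) =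
          fun n : ℕ => (n.factorial : ℂ)⁻¹ • ((σ : ℂ) - 0) ^ n • iteratedDeriv n s 0 := by
        funext n
        simp only [c, smul_eq_mul, sub_zero]
        ring
      rw [e]
      exact hsum
    have hb : ∀ n, ‖c n * (σ : ℂ) ^ n‖ ≤ B * ρ ^ n := by
      intro n
      rw [norm_mul, norm_pow, Complex.norm_real, Real.norm_eq_abs]
      calc ‖c n‖ * |σ| ^ n ≤ B / R ^ n * (ρ * R) ^ n :=
            mul_le_mul (hc n) (pow_le_pow_left₀ (abs_nonneg _) hσ n) (by positivity)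
              (by positivity)
        _ = B * ρ ^ n := by rw [mul_pow]; field_simp
    have ht := norm_sub_le_of_geometric_bound_of_hasSum (by linarith) hb hsum' J
    refine ⟨(s σ).re, ?_, ?_⟩
    · have e := h2 σ hσR.le
      rw [hev, ← Real.sq_sqrt hG0] at e
      push_cast at e
      rcases sq_eq_sq_iff_eq_or_eq_neg.1 e with e | e <;> rw [e] <;> simp [Real.sq_sqrt hG0]
    · have e : T.eval σ = (∑ x ∈ range J, c x * (σ : ℂ) ^ x).re := by
        simp only [T, eval_finsetSum, Complex.re_sum, eval_mul, eval_C, eval_pow, eval_X]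
        refine sum_congr rfl fun i _ => ?_
        rw [← Complex.ofReal_pow, Complex.re_mul_ofReal]
      rw [e, abs_sub_comm, ← Complex.sub_re]
      refine (Complex.abs_re_le_norm _).trans (ht.trans ?_)
      rw [div_le_iff₀ (by linarith)]
      have : 0 ≤ B * ρ ^ J := by positivity
      nlinarith

/-- The approximation lemma, all sizes being powers of `Z`; centre `0`. -/
theorem padeSqrt0 (G : ℝ[X]) (Z a J n μ β l y e : ℕ) (hZ : 2 ≤ Z) (haJ : a + J + 1 ≤ Z)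
    (hl : 1 ≤ l) (hG : ∀ z : ℂ, ‖z‖ ≤ (Z : ℝ) ^ (y + l) → (G.map (algebraMap ℝ ℂ)).eval z ≠ 0)
    (hB : |G.eval 0| * 2 ^ G.natDegree ≤ ((Z : ℝ) ^ β) ^ 2)
    (hp : μ * (a + 1) + J * (μ + n + β + 3) ≤ n * (a + 1))
    (h1 : e + 1 + y * (a + J) ≤ μ) (h2 : e + 2 + β + n + y * a ≤ l * J) :
    ∃ P Q : ℤ[X], P.natDegree ≤ a ∧ Q.natDegree ≤ a ∧ Q ≠ 0 ∧
      ∀ σ : ℤ, |σ| ≤ (Z : ℤ) ^ y → 0 ≤ G.eval (σ : ℝ) →
        ∃ φ : ℝ, φ ^ 2 = G.eval (σ : ℝ) ∧ |Q.eval σ| ≤ (Z : ℤ) ^ (1 + n + y * a) ∧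
          |((P.eval σ : ℤ) : ℝ) + φ * (Q.eval σ : ℤ)| * (Z : ℝ) ^ e ≤ 2 := by
  have hZr : (2 : ℝ) ≤ Z := by exact_mod_cast hZ
  have hZ1 : (1 : ℝ) ≤ Z := by linarith
  have hZ0 : (0 : ℝ) < Z := by linarith
  obtain ⟨T, hT, hTc, hTa⟩ := sqrtApprox G ((Z : ℝ) ^ (y + l)) ((Z : ℝ) ^ β) J
    (one_le_pow₀ hZ1) (by positivity) hG hB
  obtain ⟨P, Q, hP, hQ, hQ0, hQc, hc⟩ := padePoly T a J (Z ^ n) (Z ^ μ) (Z ^ β) hT
    (by simpa using hTc) (by positivity) (by
      have a1 : 2 * (a + 1) * Z ^ n * Z ^ β + 2 ≤ Z ^ (n + β + 3) := by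
        have b1 : 1 ≤ Z ^ n * Z ^ β := Nat.one_le_iff_ne_zero.2 (by positivity)
        have b2 : 2 * (a + 1) + 2 ≤ Z ^ 3 := by
          have : a + 1 ≤ Z := by omega
          nlinarith [Nat.mul_le_mul hZ hZ]
        calc 2 * (a + 1) * Z ^ n * Z ^ β + 2 ≤ (2 * (a + 1) + 2) * (Z ^ n * Z ^ β) := by nlinarith
          _ ≤ Z ^ 3 * (Z ^ n * Z ^ β) := Nat.mul_le_mul_right _ b2
          _ = _ := by ring
      calc (Z ^ μ) ^ (a + 1) * (Z ^ μ * (2 * (a + 1) * Z ^ n * Z ^ β + 2)) ^ J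
          ≤ (Z ^ μ) ^ (a + 1) * (Z ^ μ * Z ^ (n + β + 3)) ^ J := by gcongr
        _ = Z ^ (μ * (a + 1) + J * (μ + n + β + 3)) := by ring
        _ ≤ Z ^ (n * (a + 1)) := Nat.pow_le_pow_right (by omega) hp
        _ = (Z ^ n) ^ (a + 1) := by ring
        _ < (Z ^ n + 1) ^ (a + 1) := Nat.pow_lt_pow_left (by omega) (by omega))
  refine ⟨P, Q, hP, hQ, hQ0, fun σ hσ hG0 => ?_⟩
  have hσr : |(σ : ℝ)| ≤ (Z : ℝ) ^ y := by exact_mod_cast hσ
  have hev : ∀ R : ℤ[X], (R.map (Int.castRingHom ℝ)).eval (σ : ℝ) = ((R.eval σ : ℤ) : ℝ) :=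
    fun R => by
      rw [eval_map]
      exact eval₂_at_apply (Int.castRingHom ℝ) σ
  obtain ⟨φ, hφ, hφT⟩ := hTa σ (((Z : ℝ) ^ l)⁻¹) (by
      rw [pow_add]; field_simp; exact hσr) (by
      rw [inv_le_comm₀ (by positivity) (by norm_num)]
      calc ((1 : ℝ) / 2)⁻¹ = 2 := by norm_num
        _ ≤ (Z : ℝ) ^ 1 := by simpa using hZr
        _ ≤ _ := pow_le_pow_right₀ hZ1 hl) hG0
  have haZ : ((a + J + 1 : ℕ) : ℝ) ≤ Z := by exact_mod_cast haJ
  have hQb : |((Q.eval σ : ℤ) : ℝ)| ≤ (Z : ℝ) ^ (1 + n + y * a) := by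
    rw [← hev]
    refine (abs_eval_le _ (a + 1) (lt_of_le_of_lt (natDegree_map_le.trans hQ) (by omega))
      ((Z : ℝ) ^ n) ((Z : ℝ) ^ y) σ (fun j => ?_) (one_le_pow₀ hZ1) hσr).trans ?_
    · rw [coeff_map, eq_intCast]
      exact_mod_cast hQc j
    · have : ((a + 1 : ℕ) : ℝ) ≤ Z := by exact_mod_cast (by omega : a + 1 ≤ Z)
      calc ((a + 1 : ℕ) : ℝ) * Z ^ n * ((Z : ℝ) ^ y) ^ (a + 1 - 1)
          ≤ Z * Z ^ n * ((Z : ℝ) ^ y) ^ (a + 1 - 1) := by gcongr
        _ = _ := by rw [Nat.add_sub_cancel]; ring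
  refine ⟨φ, hφ, by exact_mod_cast hQb, ?_⟩
  have hR : |((P.eval σ : ℤ) : ℝ) + T.eval (σ : ℝ) * (Q.eval σ : ℤ)| * (Z : ℝ) ^ e ≤ 1 := by
    have hd : (P.map (Int.castRingHom ℝ) + T * Q.map (Int.castRingHom ℝ)).natDegree <
        a + J + 1 := by
      refine lt_of_le_of_lt (natDegree_add_le _ _) (max_lt ?_ ?_)
      · exact lt_of_le_of_lt (natDegree_map_le.trans hP) (by omega)
      · refine lt_of_le_of_lt natDegree_mul_le ?_
        have := (natDegree_map_le (f := Int.castRingHom ℝ)).trans hQ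
        omega
    have hh := abs_eval_le _ _ hd (((Z : ℝ) ^ μ)⁻¹) ((Z : ℝ) ^ y) σ (fun j => by
      have := hc j
      push_cast at this
      rwa [← one_div, le_div_iff₀ (by positivity)]) (one_le_pow₀ hZ1) hσr
    rw [eval_add, eval_mul, hev, hev, Nat.add_sub_cancel] at hh
    refine (mul_le_mul_of_nonneg_right hh (by positivity)).trans ?_
    calc ((a + J + 1 : ℕ) : ℝ) * ((Z : ℝ) ^ μ)⁻¹ * ((Z : ℝ) ^ y) ^ (a + J) * (Z : ℝ) ^ e
        ≤ Z * ((Z : ℝ) ^ μ)⁻¹ * ((Z : ℝ) ^ y) ^ (a + J) * (Z : ℝ) ^ e := by gcongr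
      _ = (Z : ℝ) ^ (e + 1 + y * (a + J)) / (Z : ℝ) ^ μ := by rw [← pow_mul]; ring
      _ ≤ 1 := by
        rw [div_le_one (by positivity)]
        exact pow_le_pow_right₀ hZ1 h1
  have hS : |φ - T.eval (σ : ℝ)| * |((Q.eval σ : ℤ) : ℝ)| * (Z : ℝ) ^ e ≤ 1 := by
    calc |φ - T.eval (σ : ℝ)| * |((Q.eval σ : ℤ) : ℝ)| * (Z : ℝ) ^ e
        ≤ (Z * (Z : ℝ) ^ β * (((Z : ℝ) ^ l)⁻¹) ^ J) * (Z : ℝ) ^ (1 + n + y * a) * (Z : ℝ) ^ e := by
          gcongr
          exact hφT.trans (by gcongr)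
      _ = (Z : ℝ) ^ (e + 2 + β + n + y * a) / (Z : ℝ) ^ (l * J) := by
          rw [inv_pow, ← pow_mul]; ring
      _ ≤ 1 := by
        rw [div_le_one (by positivity)]
        exact pow_le_pow_right₀ hZ1 h2
  have e1 : ((P.eval σ : ℤ) : ℝ) + φ * (Q.eval σ : ℤ) =
      (((P.eval σ : ℤ) : ℝ) + T.eval (σ : ℝ) * (Q.eval σ : ℤ)) +
        (φ - T.eval (σ : ℝ)) * (Q.eval σ : ℤ) := by ring
  rw [e1]
  refine (mul_le_mul_of_nonneg_right (abs_add_le _ _) (by positivity)).trans ?_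
  rw [abs_mul, add_mul]
  linarith

/-- The approximation lemma with centre `x₀`. -/
theorem padeSqrt (G : ℝ[X]) (x₀ : ℤ) (Z a J n μ β l y e : ℕ) (hZ : 2 ≤ Z) (haJ : a + J + 1 ≤ Z)
    (hl : 1 ≤ l)
    (hG : ∀ z : ℂ, ‖z - x₀‖ ≤ (Z : ℝ) ^ (y + l) → (G.map (algebraMap ℝ ℂ)).eval z ≠ 0)
    (hB : |G.eval (x₀ : ℝ)| * 2 ^ G.natDegree ≤ ((Z : ℝ) ^ β) ^ 2)
    (hp : μ * (a + 1) + J * (μ + n + β + 3) ≤ n * (a + 1))
    (h1 : e + 1 + y * (a + J) ≤ μ) (h2 : e + 2 + β + n + y * a ≤ l * J) :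
    ∃ P Q : ℤ[X], P.natDegree ≤ a ∧ Q.natDegree ≤ a ∧ Q ≠ 0 ∧
      ∀ x : ℤ, |x - x₀| ≤ (Z : ℤ) ^ y → 0 ≤ G.eval (x : ℝ) →
        ∃ φ : ℝ, φ ^ 2 = G.eval (x : ℝ) ∧ |Q.eval x| ≤ (Z : ℤ) ^ (1 + n + y * a) ∧
          |((P.eval x : ℤ) : ℝ) + φ * (Q.eval x : ℤ)| * (Z : ℝ) ^ e ≤ 2 := by
  obtain ⟨P, Q, hP, hQ, hQ0, h⟩ := padeSqrt0 (taylor (x₀ : ℝ) G) Z a J n μ β l y e hZ haJ hl
    (fun z hz => by
      rw [map_taylor, taylor_eval]
      exact hG _ (by simpa using hz))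
    (by simpa [taylor_eval, natDegree_taylor] using hB) hp h1 h2
  refine ⟨taylor (-x₀) P, taylor (-x₀) Q, by simpa using hP, by simpa using hQ, ?_, ?_⟩
  · intro h0
    exact hQ0 (taylor_injective (-x₀) (by simpa using h0))
  · intro x hx hG0
    have := h (x - x₀) hx (by simpa [taylor_eval] using hG0)
    simpa [taylor_eval, sub_eq_add_neg] using this

end Pool.Agent.MP_070445_nt
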